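import Pool.Agent.S821.PowIdx

set_option autoImplicit false

/-!
# Primes between consecutive squares and consecutive odd squares, from the rich indices (helper951, after helper821)
-/

namespace Pool.Agent.U951.TR.Odd

open Finset Filter
open Pool.Agent.S821.PowIdx (RichPow)

/-- the logarithm is small -/
theorem ev_log (K : ℝ) : ∀ᶠ k : ℕ in atTop, K * Real.log (k : ℝ) ≤ (k : ℝ) := by
  have h1 : ∀ᶠ x : ℝ in atTop, ‖Real.log x‖ ≤ (|K| + 1)⁻¹ * ‖x‖ :=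
    Real.isLittleO_log_id_atTop.bound (by positivity)
  filter_upwards [tendsto_natCast_atTop_atTop.eventually h1, eventually_ge_atTop 1] with k h2 h3
  have hk : (1 : ℝ) ≤ (k : ℝ) := by exact_mod_cast h3
  have hl : 0 ≤ Real.log (k : ℝ) := Real.log_nonneg hk
  rw [Real.norm_of_nonneg hl, Real.norm_of_nonneg (by linarith)] at h2
  have h4 : (|K| + 1) * Real.log (k : ℝ) ≤ k := by
    calc (|K| + 1) * Real.log (k : ℝ) ≤ (|K| + 1) * ((|K| + 1)⁻¹ * k) :=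
          mul_le_mul_of_nonneg_left h2 (by positivity)
      _ = k := by
          rw [← mul_assoc, mul_inv_cancel₀ (by positivity), one_mul]
  have h5 : K * Real.log (k : ℝ) ≤ (|K| + 1) * Real.log (k : ℝ) :=
    mul_le_mul_of_nonneg_right (by linarith [le_abs_self K]) hl
  linarith

/-- the odd squares -/
theorem odd_of_rich {c δ : ℝ} (hc : 0 < c) (hδ : 0 < δ) (hδ1 : δ ≤ 1) : ∃ k1 : ℕ, ∀ k : ℕ, k1 ≤ k →
    RichPow c (1 - δ) 2 3 (2 * k) →
    2 ≤ ((Finset.Ioo ((2 * k - 1) ^ 2) ((2 * k + 1) ^ 2)).filter Nat.Prime).card ∧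
    ∀ a H : ℕ, (2 * k - 1) ^ 2 ≤ a → a + H ≤ (2 * k + 1) ^ 2 → (k : ℝ) ^ (1 - δ / 2) ≤ H →
      c / 2 * H / Real.log k ≤ (((Finset.Ioc a (a + H)).filter Nat.Prime).card : ℝ) := by
  have t1 : Tendsto (fun n : ℕ => (n : ℝ) ^ (δ / 2)) atTop atTop :=
    (tendsto_rpow_atTop (by positivity)).comp tendsto_natCast_atTop_atTop
  obtain ⟨k1, hk1⟩ := eventually_atTop.1 ((t1.eventually_ge_atTop 2).and ((eventually_ge_atTop 2).and (ev_log (4 / c))))
  refine ⟨k1, fun k hk h => ?_⟩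
  obtain ⟨hkδ, hk, hkl⟩ := hk1 k hk
  have hk2 : (2 : ℝ) ≤ k := by exact_mod_cast hk
  have hk0 : (0 : ℝ) < k := by linarith
  have hlog : 0 < Real.log k := Real.log_pos (by linarith)
  have hw : ∀ a H : ℕ, (2 * k - 1) ^ 2 ≤ a → a + H ≤ (2 * k + 1) ^ 2 → (k : ℝ) ^ (1 - δ / 2) ≤ H →
      c / 2 * H / Real.log k ≤ (((Finset.Ioc a (a + H)).filter Nat.Prime).card : ℝ) := by
    intro a H g1 g2 g3
    have e1 : ((2 * k - 1 : ℕ) : ℝ) = 2 * k - 1 := by
      rw [Nat.cast_sub (by omega)]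
      push_cast
      ring
    have g1' : (2 * (k : ℝ) - 1) ^ 2 ≤ a := by
      rw [← e1]
      exact_mod_cast g1
    have g2' : (a : ℝ) + H ≤ (2 * k + 1) ^ 2 := by exact_mod_cast g2
    have hH : (0 : ℝ) ≤ H := Nat.cast_nonneg _
    have h1 := h a H (by
      rw [Real.rpow_two, show (2 : ℝ) - 1 = 1 by norm_num, Real.rpow_one, abs_le]
      push_cast
      constructor <;> nlinarith) (by
      rw [Real.rpow_two, show (2 : ℝ) - 1 = 1 by norm_num, Real.rpow_one, abs_le]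
      push_cast
      constructor <;> nlinarith) (by
      refine le_trans ?_ g3
      push_cast
      rw [Real.mul_rpow (by norm_num) hk0.le]
      have e2 : (2 : ℝ) ^ (1 - δ) ≤ 2 := by
        calc (2 : ℝ) ^ (1 - δ) ≤ 2 ^ (1 : ℝ) := Real.rpow_le_rpow_of_exponent_le (by norm_num) (by linarith)
          _ = 2 := Real.rpow_one 2
      calc (2 : ℝ) ^ (1 - δ) * (k : ℝ) ^ (1 - δ) ≤ (k : ℝ) ^ (δ / 2) * (k : ℝ) ^ (1 - δ) :=
            mul_le_mul_of_nonneg_right (e2.trans hkδ) (by positivity)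
        _ = (k : ℝ) ^ (1 - δ / 2) := by
            rw [← Real.rpow_add hk0]
            congr 1
            ring)
    refine le_trans ?_ h1
    have hl2 : Real.log ((2 * k : ℕ) : ℝ) ≤ 2 * Real.log k := by
      push_cast
      rw [Real.log_mul (by norm_num) hk0.ne']
      have := Real.log_le_log (by norm_num : (0 : ℝ) < 2) hk2
      linarith
    have hl1 : 0 < Real.log ((2 * k : ℕ) : ℝ) := Real.log_pos (by push_cast; linarith)
    rw [div_le_div_iff₀ hlog hl1]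
    calc c / 2 * H * Real.log ((2 * k : ℕ) : ℝ) ≤ c / 2 * H * (2 * Real.log k) := by gcongr
      _ = c * H * Real.log k := by ring
  refine ⟨?_, hw⟩
  have hkk : (k : ℝ) ^ (1 - δ / 2) ≤ k := by
    calc (k : ℝ) ^ (1 - δ / 2) ≤ (k : ℝ) ^ (1 : ℝ) := Real.rpow_le_rpow_of_exponent_le (by linarith) (by linarith)
      _ = k := Real.rpow_one _
  obtain ⟨j, rfl⟩ : ∃ j, k = j + 1 := ⟨k - 1, by omega⟩
  have e3 : 2 * (j + 1) - 1 = 2 * j + 1 := by omega
  have h4 := hw ((2 * (j + 1) - 1) ^ 2) (j + 1) le_rfl (by rw [e3]; nlinarith) hkk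
  have h5 : (2 : ℝ) ≤ c / 2 * ((j + 1 : ℕ) : ℝ) / Real.log ((j + 1 : ℕ) : ℝ) := by
    rw [le_div_iff₀ hlog]
    rw [div_mul_eq_mul_div, div_le_iff₀ hc] at hkl
    linarith
  have h6 : 2 ≤ ((Finset.Ioc ((2 * (j + 1) - 1) ^ 2) ((2 * (j + 1) - 1) ^ 2 + (j + 1))).filter Nat.Prime).card := by
    exact_mod_cast h5.trans h4
  refine h6.trans (card_le_card fun p hp => ?_)
  rw [mem_filter, mem_Ioc] at hp
  rw [mem_filter, mem_Ioo]
  refine ⟨⟨hp.1.1, lt_of_le_of_lt hp.1.2 ?_⟩, hp.2⟩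
  rw [e3]
  nlinarith

/-- the consecutive squares -/
theorem sq_of_rich {c δ : ℝ} (hc : 0 < c) (hδ : 0 < δ) : ∃ k1 : ℕ, 2 ≤ k1 ∧ ∀ k : ℕ, k1 ≤ k →
    RichPow c (1 - δ) 2 3 (1 * k) →
    (4 ≤ ((Finset.Ioo (k ^ 2) ((k + 1) ^ 2)).filter Nat.Prime).card ∧
      c * (2 * k + 1) / (2 * Real.log k) ≤ (((Finset.Ioo (k ^ 2) ((k + 1) ^ 2)).filter Nat.Prime).card : ℝ)) ∧
    ∀ a H : ℕ, k ^ 2 ≤ a + k → a + H ≤ (k + 1) ^ 2 → (k : ℝ) ^ (1 - δ) ≤ H →
      c * H / Real.log k ≤ (((Finset.Ioc a (a + H)).filter Nat.Prime).card : ℝ) := by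
  obtain ⟨k1, hk1⟩ := eventually_atTop.1 ((eventually_ge_atTop 2).and (ev_log (4 / c)))
  refine ⟨max k1 2, le_max_right _ _, fun k hk h => ?_⟩
  rw [one_mul] at h
  obtain ⟨hk, hkl⟩ := hk1 k ((le_max_left _ _).trans hk)
  have hk2 : (2 : ℝ) ≤ k := by exact_mod_cast hk
  have hk0 : (0 : ℝ) < k := by linarith
  have hlog : 0 < Real.log k := Real.log_pos (by linarith)
  have hw : ∀ a H : ℕ, k ^ 2 ≤ a + k → a + H ≤ (k + 1) ^ 2 → (k : ℝ) ^ (1 - δ) ≤ H →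
      c * H / Real.log k ≤ (((Finset.Ioc a (a + H)).filter Nat.Prime).card : ℝ) := by
    intro a H g1 g2 g3
    have g1' : (k : ℝ) ^ 2 ≤ a + k := by exact_mod_cast g1
    have g2' : (a : ℝ) + H ≤ ((k : ℝ) + 1) ^ 2 := by exact_mod_cast g2
    have hH : (0 : ℝ) ≤ H := Nat.cast_nonneg _
    exact h a H (by
      rw [Real.rpow_two, show (2 : ℝ) - 1 = 1 by norm_num, Real.rpow_one, abs_le]
      constructor <;> nlinarith) (by
      rw [Real.rpow_two, show (2 : ℝ) - 1 = 1 by norm_num, Real.rpow_one, abs_le]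
      constructor <;> nlinarith) g3
  refine ⟨?_, hw⟩
  have hk2k : (k : ℝ) ^ (1 - δ) ≤ ((2 * k : ℕ) : ℝ) := by
    push_cast
    calc (k : ℝ) ^ (1 - δ) ≤ (k : ℝ) ^ (1 : ℝ) := Real.rpow_le_rpow_of_exponent_le (by linarith) (by linarith)
      _ = k := Real.rpow_one _
      _ ≤ 2 * k := by linarith
  have h4 := hw (k ^ 2) (2 * k) (by omega) (by nlinarith) hk2k
  have hle : (((Finset.Ioc (k ^ 2) (k ^ 2 + 2 * k)).filter Nat.Prime).card : ℝ) ≤
      (((Finset.Ioo (k ^ 2) ((k + 1) ^ 2)).filter Nat.Prime).card : ℝ) := by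
    refine Nat.cast_le.2 (card_le_card fun p hp => ?_)
    rw [mem_filter, mem_Ioc] at hp
    rw [mem_filter, mem_Ioo]
    refine ⟨⟨hp.1.1, lt_of_le_of_lt hp.1.2 ?_⟩, hp.2⟩
    nlinarith
  have h7 : c * (2 * (k : ℝ) + 1) / (2 * Real.log k) ≤ c * ((2 * k : ℕ) : ℝ) / Real.log k := by
    push_cast
    rw [div_le_div_iff₀ (by positivity) hlog]
    have : c * (2 * (k : ℝ) + 1) ≤ c * (2 * k) * 2 := by nlinarith
    nlinarith
  refine ⟨?_, (h7.trans h4).trans hle⟩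
  have h5 : (4 : ℝ) ≤ c * ((2 * k : ℕ) : ℝ) / Real.log k := by
    rw [le_div_iff₀ hlog]
    rw [div_mul_eq_mul_div, div_le_iff₀ hc] at hkl
    push_cast
    nlinarith
  exact_mod_cast (h5.trans h4).trans hle

end Pool.Agent.U951.TR.Odd
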