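import Pool.Agent.U951.TR.Mat

set_option autoImplicit false

/-!
# Counts of rational matrices, for matrices of integers with given absolute values (helper951)
-/

namespace Pool.Agent.U951.TR.Mat

open Finset

open Classical in
/-- The exceptional tuples, if there are at most `C |A| ^ E` exceptional matrices with entries in `A`. -/
theorem count_rat {n k C : ℕ} {E : ℝ} (hE : E ≤ ((n * k : ℕ) : ℝ)) {G : (Fin n → Fin k → ℚ) → Prop}
    (h : ∀ A : Finset ℚ, A.Nonempty →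
      (((Fintype.piFinset fun _ : Fin n => Fintype.piFinset fun _ : Fin k => A).filter fun a => ¬ G a).card : ℝ) ≤
        C * (A.card : ℝ) ^ E) (X : ℕ) (hX : 1 ≤ X) :
    ({w : Fin (n * k) → ℕ | (∀ i, 2 ≤ w i ∧ w i ≤ X) ∧ ¬ ∀ a : Fin n → Fin k → ℤ, Abs w a →
      G (fun j i => (a j i : ℚ))}.ncard : ℝ) ≤ (C * 3 ^ (n * k) : ℕ) * (X : ℝ) ^ E := by
  obtain ⟨A, hA⟩ : ∃ A : Finset ℚ, A = (Icc (-(X : ℤ)) X).image (fun z : ℤ => (z : ℚ)) := ⟨_, rfl⟩
  have hcard : A.card = 2 * X + 1 := by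
    rw [hA, card_image_of_injective _ Int.cast_injective, Int.card_Icc]
    omega
  have h1 := h A (card_pos.1 (by omega))
  rw [hcard] at h1
  obtain ⟨S, hS⟩ : ∃ S : Finset (Fin n → Fin k → ℚ), S = (Fintype.piFinset fun _ : Fin n => Fintype.piFinset
    fun _ : Fin k => A).filter fun a => ¬ G a := ⟨_, rfl⟩
  rw [← hS] at h1
  have h3 : {w : Fin (n * k) → ℕ | (∀ i, 2 ≤ w i ∧ w i ≤ X) ∧ ¬ ∀ a : Fin n → Fin k → ℤ, Abs w a →
      G (fun j i => (a j i : ℚ))} ⊆
      ((S.image (fun a (i : Fin (n * k)) => (a (finProdFinEquiv.symm i).1 (finProdFinEquiv.symm i).2).num.natAbs) :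
        Finset (Fin (n * k) → ℕ)) : Set (Fin (n * k) → ℕ)) := by
    rintro w ⟨hw, hG⟩
    push Not at hG
    obtain ⟨a, ha, haG⟩ := hG
    rw [coe_image, Set.mem_image]
    refine ⟨fun j i => (a j i : ℚ), ?_, ?_⟩
    · rw [mem_coe, hS, mem_filter, Fintype.mem_piFinset]
      refine ⟨fun i => ?_, haG⟩
      rw [Fintype.mem_piFinset]
      intro j
      have h4 := ha i j
      have h5 := (hw (finProdFinEquiv (i, j))).2
      rw [hA, mem_image]
      refine ⟨a i j, ?_, rfl⟩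
      rw [mem_Icc]
      constructor <;> omega
    · funext i
      have h4 := ha (finProdFinEquiv.symm i).1 (finProdFinEquiv.symm i).2
      simp only [Rat.num_intCast]
      rw [h4]
      congr 1
      exact finProdFinEquiv.apply_symm_apply i
  have h4 : ({w : Fin (n * k) → ℕ | (∀ i, 2 ≤ w i ∧ w i ≤ X) ∧ ¬ ∀ a : Fin n → Fin k → ℤ, Abs w a →
      G (fun j i => (a j i : ℚ))}.ncard : ℝ) ≤ (S.card : ℝ) := by
    refine Nat.cast_le.2 ((Set.ncard_le_ncard h3 (finite_toSet _)).trans ?_)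
    rw [Set.ncard_coe_finset]
    exact card_image_le
  refine h4.trans (h1.trans ?_)
  have hX1 : (1 : ℝ) ≤ X := by exact_mod_cast hX
  have hX0 : (0 : ℝ) < X := by linarith
  have h5 : (((2 * X + 1 : ℕ) : ℝ)) ^ E ≤ 3 ^ (n * k) * (X : ℝ) ^ E := by
    have e1 : ((2 * X + 1 : ℕ) : ℝ) = 2 * X + 1 := by push_cast; ring
    rw [e1]
    have e3 : (1 : ℝ) ≤ 3 ^ (n * k) := one_le_pow₀ (by norm_num)
    rcases le_or_gt 0 E with h0 | h0
    · calc ((2 : ℝ) * X + 1) ^ E ≤ (3 * X) ^ E := Real.rpow_le_rpow (by positivity) (by linarith) h0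
        _ = 3 ^ E * (X : ℝ) ^ E := Real.mul_rpow (by norm_num) hX0.le
        _ ≤ 3 ^ (n * k) * (X : ℝ) ^ E := by
            apply mul_le_mul_of_nonneg_right _ (by positivity)
            rw [← Real.rpow_natCast]
            exact Real.rpow_le_rpow_of_exponent_le (by norm_num) hE
    · calc ((2 : ℝ) * X + 1) ^ E ≤ (X : ℝ) ^ E := Real.rpow_le_rpow_of_nonpos hX0 (by linarith) h0.le
        _ = 1 * (X : ℝ) ^ E := (one_mul _).symm
        _ ≤ 3 ^ (n * k) * (X : ℝ) ^ E := mul_le_mul_of_nonneg_right e3 (by positivity)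
  calc (C : ℝ) * ((2 * X + 1 : ℕ) : ℝ) ^ E ≤ C * (3 ^ (n * k) * (X : ℝ) ^ E) :=
        mul_le_mul_of_nonneg_left h5 (by positivity)
    _ = (C * 3 ^ (n * k) : ℕ) * (X : ℝ) ^ E := by
        push_cast
        ring

end Pool.Agent.U951.TR.Mat
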