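import Pool.Agent.U951.TR.FracE
import Pool.Agent.Results.MP_26ad15_nt.RationalParameters

set_option autoImplicit false

/-!
# Pairs of natural numbers and of integers whose quotient is an exceptional parameter of the Gamma function (helper951)
-/

namespace Pool.Agent.U951.TR.Gam

open Finset
open Pool.Agent.U951.TR.Frac
open Pool.Agent.Results.MP_26ad15_nt.RationalParameters (values Exceptional)

/-- a relation of heights `U`, `V` -/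
def Rel {n : ℕ} (α γ : Fin n → ℝ) (d : ℕ) (q : ℚ) (U V : ℝ) : Prop :=
  ∃ P : MvPolynomial (Option (Fin n)) ℤ, P ≠ 0 ∧ (∀ x, P.degreeOf x ≤ d) ∧
    (∀ s, |((P.coeff s : ℤ) : ℝ)| ≤ U) ∧ |MvPolynomial.aeval (values α γ q) P| ≤ V

lemma Rel.mono {n : ℕ} (α γ : Fin n → ℝ) (d : ℕ) (q : Fin 1 → ℚ) (U V U' V' : ℝ) (hU : U ≤ U') (hV : V ≤ V')
    (h : Rel α γ d (q 0) U V) : Rel α γ d (q 0) U' V' := by
  obtain ⟨P, h1, h2, h3, h4⟩ := h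
  exact ⟨P, h1, h2, fun s => (h3 s).trans hU, h4.trans hV⟩

/-- the saving -/
noncomputable def cn (n d : ℕ) : ℝ := 1 / (2 * (((d : ℝ) + 1) ^ (n + 1) + 1))

lemma cn_pos (n d : ℕ) : 0 < cn n d := by unfold cn; positivity

lemma cn_le (n d : ℕ) : cn n d ≤ ((2 : ℕ) : ℝ) := by
  have h2 : (0 : ℝ) ≤ ((d : ℝ) + 1) ^ (n + 1) := by positivity
  have h3 : cn n d ≤ 1 := by
    unfold cn
    rw [div_le_one (by linarith)]
    linarith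
  push_cast
  linarith

/-- the largest absolute value -/
def ht (x : Fin 2 → ℤ) : ℕ := Finset.univ.sup fun i => (x i).natAbs

/-- the exceptional pairs -/
def BadPair {n : ℕ} (α γ : Fin n → ℝ) (d : ℕ) (a b A B : ℝ) : Set (Fin 2 → ℤ) :=
  {x | x 1 ≠ 0 ∧ (a ≤ (((x 0 : ℚ) / (x 1 : ℚ) : ℚ) : ℝ) ∧ (((x 0 : ℚ) / (x 1 : ℚ) : ℚ) : ℝ) ≤ b) ∧
    Rel α γ d ((x 0 : ℚ) / (x 1 : ℚ)) ((ht x : ℝ) ^ A) ((ht x : ℝ) ^ (-B))}

lemma badPair_eq {n : ℕ} (α γ : Fin n → ℝ) (d : ℕ) (a b A B : ℝ) :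
    BadPair α γ d a b A B = Bad (n := 1) (fun q => Rel α γ d (q 0)) a b A B := by
  ext x
  constructor
  · rintro ⟨h1, h2, h3⟩
    refine ⟨fun j => ?_, fun j => ?_, h3⟩
    · rw [Subsingleton.elim j 0]
      exact h1
    · rw [Subsingleton.elim j 0]
      exact h2
  · rintro ⟨h1, h2, h3⟩
    exact ⟨h1 0, h2 0, h3⟩

lemma input {n : ℕ} (d : ℕ) (α γ : Fin n → ℝ) (hα : ∀ j, 0 < α j)
    (hH : ∀ m : Fin n → ℤ, ∑ j, (m j : ℝ) * α j = 0 → ∑ j, (m j : ℝ) * (α j * Real.log (α j)) = 0 → m = 0)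
    {a b A : ℝ} (hab : a < b) (ha : ∀ j, 0 < α j * a + γ j) (hA : 0 ≤ A) :
    ∃ B C : ℝ, 0 ≤ B ∧
    (∀ T : ℕ, 1 ≤ T → ({x : Fin 2 → ℤ | (∀ i, |x i| ≤ (T : ℤ)) ∧ x ∈ BadPair α γ d a b A B}.ncard : ℝ) ≤
      C * (T : ℝ) ^ (((2 : ℕ) : ℝ) - cn n d)) ∧
    (∀ T : ℕ, 1 ≤ T → ∀ m₀ : ℕ,
      ({w : Fin 2 → ℕ | (∀ i, m₀ ≤ w i ∧ w i ≤ T) ∧ (fun i => (w i : ℤ)) ∈ BadPair α γ d a b A B}.ncard : ℝ) ≤
      C * (T : ℝ) ^ (((2 : ℕ) : ℝ) - cn n d)) := by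
  have hD : (0 : ℝ) < ((d : ℝ) + 1) ^ (n + 1) + 1 := by positivity
  have hD2 : (2 : ℝ) ≤ ((d : ℝ) + 1) ^ (n + 1) + 1 := by
    have : (1 : ℝ) ≤ ((d : ℝ) + 1) ^ (n + 1) := one_le_pow₀ (by linarith [(Nat.cast_nonneg d : (0 : ℝ) ≤ d)])
    linarith
  obtain ⟨β, hβ⟩ : ∃ β : ℝ, β = 2 - 1 / (((d : ℝ) + 1) ^ (n + 1) + 1) := ⟨_, rfl⟩
  have hx : 0 < 1 / (((d : ℝ) + 1) ^ (n + 1) + 1) := by positivity
  have hx2 : 1 / (((d : ℝ) + 1) ^ (n + 1) + 1) ≤ 1 / 2 := one_div_le_one_div_of_le (by norm_num) hD2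
  have hβ1 : 2 - 2 / (((d : ℝ) + 1) ^ (n + 1) + 1) < β := by
    rw [hβ]
    have : 2 / (((d : ℝ) + 1) ^ (n + 1) + 1) = 2 * (1 / (((d : ℝ) + 1) ^ (n + 1) + 1)) := by ring
    linarith
  have hβ0 : 0 < β := by rw [hβ]; linarith
  have hβ2 : β < 2 := by rw [hβ]; linarith
  obtain ⟨B, C, h⟩ := Pool.Agent.Results.MP_26ad15_nt.RationalParameters.result n d α γ hα hH a b hab ha A β hA hβ1
  have hce : (2 - β) / (((1 : ℕ) : ℝ) + 1) = cn n d := by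
    unfold cn
    rw [hβ]
    field_simp
    ring
  have h' : ∀ T : ℝ, 1 ≤ T → {q : Fin 1 → ℚ | (∀ j, a ≤ q j ∧ q j ≤ b ∧ ((q j).den : ℝ) ≤ T) ∧
      Rel α γ d (q 0) (T ^ A) (T ^ (-B))}.Finite ∧
      ({q : Fin 1 → ℚ | (∀ j, a ≤ q j ∧ q j ≤ b ∧ ((q j).den : ℝ) ≤ T) ∧
        Rel α γ d (q 0) (T ^ A) (T ^ (-B))}.ncard : ℝ) ≤ C * T ^ (2 * (((1 : ℕ) : ℝ) - 1) + β) := by
    intro T hT
    obtain ⟨hf, hc⟩ := h T hT
    have hmem : ∀ q : Fin 1 → ℚ, q ∈ {q : Fin 1 → ℚ | (∀ j, a ≤ q j ∧ q j ≤ b ∧ ((q j).den : ℝ) ≤ T) ∧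
        Rel α γ d (q 0) (T ^ A) (T ^ (-B))} → q 0 ∈ Exceptional α γ d a b A B T := by
      rintro q ⟨h1, h2⟩
      exact ⟨(h1 0).1, (h1 0).2.1, (h1 0).2.2, h2⟩
    have hinj : Set.InjOn (fun q : Fin 1 → ℚ => q 0) {q : Fin 1 → ℚ | (∀ j, a ≤ q j ∧ q j ≤ b ∧ ((q j).den : ℝ) ≤ T) ∧
        Rel α γ d (q 0) (T ^ A) (T ^ (-B))} := by
      intro q _ q' _ hqq
      funext j
      rw [Subsingleton.elim j 0]
      exact hqq
    refine ⟨Set.Finite.of_finite_image (hf.subset ?_) hinj, ?_⟩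
    · rintro _ ⟨q, hq, rfl⟩
      exact hmem q hq
    · have h3 := Set.ncard_le_ncard_of_injOn _ hmem hinj hf
      have h4 : (2 * (((1 : ℕ) : ℝ) - 1) + β) = β := by push_cast; ring
      rw [h4]
      exact le_trans (by exact_mod_cast h3) hc
  obtain ⟨C₁, hC₁, h1⟩ := count_int le_rfl hβ0 hβ2 (a := a) (b := b) (B := B) (C := C) hA
    (fun q : Fin 1 → ℚ => Rel α γ d (q 0)) (Rel.mono α γ d) h'
  obtain ⟨C₂, hC₂, h2⟩ := count_nat le_rfl hβ0 hβ2 (a := a) (b := b) (B := B) (C := C) hA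
    (fun q : Fin 1 → ℚ => Rel α γ d (q 0)) (Rel.mono α γ d) h'
  refine ⟨2 * max B 0, max C₁ C₂, by positivity, fun T hT => ?_, fun T hT m₀ => ?_⟩
  · rw [← hce, badPair_eq]
    exact (h1 T hT).trans (mul_le_mul_of_nonneg_right (le_max_left _ _) (by positivity))
  · rw [← hce, badPair_eq]
    exact (h2 T hT m₀).trans (mul_le_mul_of_nonneg_right (le_max_right _ _) (by positivity))

end Pool.Agent.U951.TR.Gam
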