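import Mathlib

set_option autoImplicit false

/-!
# Vectors of integers with the absolute values given by a tuple of natural numbers (helper951)
-/

namespace Pool.Agent.U951.TR.Abs

open Finset

/-- `v` is a vector of integers with the absolute values `w`. -/
def Signs {k : ℕ} (w : Fin k → ℕ) (v : Fin k → ℤ) : Prop := ∀ i, (v i).natAbs = w i

/-- The exceptional tuples, if there are at most `C (2 N + 1) ^ (k - 1)` exceptional vectors in the boxes. -/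
theorem count {k C : ℕ} (hk : 1 ≤ k) {G : (Fin k → ℤ) → Prop}
    (h : ∀ N : ℕ, {v : Fin k → ℤ | (∀ e, |v e| ≤ N) ∧ ¬ G v}.ncard ≤ C * (2 * N + 1) ^ (k - 1)) (X : ℕ) (hX : 1 ≤ X) :
    ({w : Fin k → ℕ | (∀ i, 2 ≤ w i ∧ w i ≤ X) ∧ ¬ ∀ v, Signs w v → G v}.ncard : ℝ) ≤
      (C * 3 ^ (k - 1) : ℕ) * (X : ℝ) ^ ((k : ℝ) - 1) := by
  have h1 := h X
  have hfin : {v : Fin k → ℤ | (∀ e, |v e| ≤ X) ∧ ¬ G v}.Finite := by
    apply (Set.Finite.pi' fun _ : Fin k => Set.finite_Icc (-(X : ℤ)) (X : ℤ)).subset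
    rintro v ⟨h2, -⟩ i
    exact abs_le.1 (h2 i)
  have h3 : {w : Fin k → ℕ | (∀ i, 2 ≤ w i ∧ w i ≤ X) ∧ ¬ ∀ v, Signs w v → G v} ⊆
      (fun (v : Fin k → ℤ) i => (v i).natAbs) '' {v : Fin k → ℤ | (∀ e, |v e| ≤ X) ∧ ¬ G v} := by
    rintro w ⟨hw, hG⟩
    push Not at hG
    obtain ⟨v, hv, hvG⟩ := hG
    refine ⟨v, ⟨fun e => ?_, hvG⟩, funext hv⟩
    have h4 := hv e
    have h5 := (hw e).2
    rw [Int.abs_eq_natAbs, h4]
    exact_mod_cast h5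
  have h4 : {w : Fin k → ℕ | (∀ i, 2 ≤ w i ∧ w i ≤ X) ∧ ¬ ∀ v, Signs w v → G v}.ncard ≤ C * (2 * X + 1) ^ (k - 1) :=
    (Set.ncard_le_ncard h3 (hfin.image _)).trans ((Set.ncard_image_le hfin).trans h1)
  have h5 : C * (2 * X + 1) ^ (k - 1) ≤ C * 3 ^ (k - 1) * X ^ (k - 1) := by
    rw [mul_assoc, ← mul_pow]
    exact Nat.mul_le_mul_left _ (Nat.pow_le_pow_left (by omega) _)
  have h6 : (X : ℝ) ^ ((k : ℝ) - 1) = (X : ℝ) ^ (k - 1) := by
    rw [← Real.rpow_natCast]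
    congr 1
    obtain ⟨l, rfl⟩ : ∃ l, k = l + 1 := ⟨k - 1, by omega⟩
    rw [Nat.add_sub_cancel]
    push_cast
    ring
  rw [h6]
  exact_mod_cast h4.trans h5

lemma card_Icc_neg (N : ℕ) : (Icc (-(N : ℤ)) (N : ℤ)).card = 2 * N + 1 := by
  rw [Int.card_Icc]
  omega

/-- Boxes of vectors of `k + k'` integers, from counts over product sets. -/
theorem box_pairs {k k' : ℕ} {G : (Fin k → ℤ) → (Fin k' → ℤ) → Prop} (c : Fin k → ℕ) (c' : Fin k' → ℕ)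
    (h : ∀ (A : Fin k → Finset ℤ) (A' : Fin k' → Finset ℤ),
      {p : (Fin k → ℤ) × (Fin k' → ℤ) | ((∀ e, p.1 e ∈ A e) ∧ ∀ e, p.2 e ∈ A' e) ∧ ¬ G p.1 p.2}.ncard ≤
      (∑ e, c e * ∏ e' ∈ univ.erase e, (A e').card) * (∏ e, (A' e).card) +
        (∏ e, (A e).card) * (∑ e, c' e * ∏ e' ∈ univ.erase e, (A' e').card)) (N : ℕ) :
    {v : Fin (k + k') → ℤ | (∀ e, |v e| ≤ N) ∧
      ¬ G (fun i => v (Fin.castAdd k' i)) (fun i => v (Fin.natAdd k i))}.ncard ≤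
      (∑ e, c e + ∑ e, c' e) * (2 * N + 1) ^ (k + k' - 1) := by
  have h1 := h (fun _ => Icc (-(N : ℤ)) (N : ℤ)) (fun _ => Icc (-(N : ℤ)) (N : ℤ))
  have hfin : {p : (Fin k → ℤ) × (Fin k' → ℤ) | ((∀ e, p.1 e ∈ Icc (-(N : ℤ)) (N : ℤ)) ∧
      ∀ e, p.2 e ∈ Icc (-(N : ℤ)) (N : ℤ)) ∧ ¬ G p.1 p.2}.Finite := by
    apply (Set.Finite.prod (Set.Finite.pi' fun _ : Fin k => Set.finite_Icc (-(N : ℤ)) (N : ℤ))
      (Set.Finite.pi' fun _ : Fin k' => Set.finite_Icc (-(N : ℤ)) (N : ℤ))).subset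
    rintro p ⟨⟨h2, h3⟩, -⟩
    refine ⟨fun i => ?_, fun i => ?_⟩
    · simpa using h2 i
    · simpa using h3 i
  refine (Set.ncard_le_ncard_of_injOn (fun v : Fin (k + k') → ℤ =>
    ((fun i => v (Fin.castAdd k' i), fun i => v (Fin.natAdd k i)) : (Fin k → ℤ) × (Fin k' → ℤ))) ?_ ?_ hfin).trans ?_
  · rintro v ⟨hv, hG⟩
    refine ⟨⟨fun e => ?_, fun e => ?_⟩, hG⟩
    · rw [mem_Icc, ← abs_le]
      exact hv _
    · rw [mem_Icc, ← abs_le]
      exact hv _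
  · intro v _ v' _ hvv
    have h2 := congrArg Prod.fst hvv
    have h3 := congrArg Prod.snd hvv
    funext e
    refine Fin.addCases (fun i => ?_) (fun i => ?_) e
    · exact congrFun h2 i
    · exact congrFun h3 i
  · refine h1.trans (le_of_eq ?_)
    have e2 : ∀ (l : ℕ) (b : Fin l → ℕ), (∑ e : Fin l, b e * ∏ _e' ∈ univ.erase e, (Icc (-(N : ℤ)) (N : ℤ)).card) =
        (∑ e, b e) * (2 * N + 1) ^ (l - 1) := by
      intro l b
      rw [sum_mul]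
      refine sum_congr rfl fun e _ => ?_
      rw [prod_const, card_Icc_neg, card_erase_of_mem (mem_univ e), card_univ, Fintype.card_fin]
    rw [e2, e2]
    simp only [prod_const, card_Icc_neg, card_univ, Fintype.card_fin]
    rcases Nat.eq_zero_or_pos k with rfl | hk
    · simp
    rcases Nat.eq_zero_or_pos k' with rfl | hk'
    · simp
    obtain ⟨l, rfl⟩ : ∃ l, k = l + 1 := ⟨k - 1, by omega⟩
    obtain ⟨l', rfl⟩ : ∃ l', k' = l' + 1 := ⟨k' - 1, by omega⟩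
    have e3 : l + 1 + (l' + 1) - 1 = l + l' + 1 := by omega
    rw [e3]
    simp only [Nat.add_sub_cancel]
    ring

end Pool.Agent.U951.TR.Abs
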