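import Pool.Agent.S821.PoorLaw
import Pool.Agent.H510R2.Div

set_option autoImplicit false

/-!
# The totient is large (after helper821, `MultiplesOfIterates` at MP_36c81c_nt)
-/

namespace Pool.Agent.U951.TR.Tot

open Finset Filter

lemma le_totient_mul (N : ℕ) (hN : 0 < N) : N ≤ N.divisors.card * N.totient := by
  conv_lhs => rw [← Nat.sum_totient N]
  rw [← smul_eq_mul]
  apply Finset.sum_le_card_nsmul
  intro d hd
  exact Nat.le_of_dvd (Nat.totient_pos.mpr hN) (Nat.totient_dvd_of_dvd (Nat.dvd_of_mem_divisors hd))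

/-- the totient is large -/
lemma totient_large {δ : ℝ} (hδ : 0 < δ) (hδ1 : δ ≤ 1) :
    ∀ᶠ n : ℕ in atTop, (n : ℝ) ^ (1 - δ) + 1 ≤ (Nat.totient n : ℝ) ^ (1 - δ / 2) ∧ (n : ℝ) ^ (1 - δ) + 1 ≤ n ∧ 2 ≤ n := by
  obtain ⟨D, hD, hdiv⟩ := Pool.Agent.H510R2.divisor_bound (δ / 8) (by positivity)
  have t0 : Tendsto (fun n : ℕ => (n : ℝ)) atTop atTop := tendsto_natCast_atTop_atTop
  have h1 := t0.eventually (Pool.Agent.S821.Poor.ev (max D 1) (max D 1)
    (by nlinarith : 1 - δ < (1 - δ / 8) * (1 - δ / 2)) (by nlinarith : 0 < (1 - δ / 8) * (1 - δ / 2)))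
  have h2 := t0.eventually (Pool.Agent.S821.Poor.ev 1 1 (by linarith : 1 - δ < 1) one_pos)
  filter_upwards [h1, h2, eventually_ge_atTop 2] with n a1 a2 a3
  rw [one_mul, Real.rpow_one] at a2
  refine ⟨?_, a2, a3⟩
  have hn0 : (0 : ℝ) < n := by positivity
  have hD1 : 1 ≤ max D 1 := le_max_right _ _
  have b1 : (n : ℝ) ≤ (n.divisors.card : ℝ) * Nat.totient n := by exact_mod_cast le_totient_mul n (by omega)
  have b2 := hdiv n (by omega)
  have hφ : (0 : ℝ) ≤ Nat.totient n := Nat.cast_nonneg _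
  have hn8 : 0 < (n : ℝ) ^ (δ / 8) := Real.rpow_pos_of_pos hn0 _
  have b3 : (n : ℝ) ≤ max D 1 * (n : ℝ) ^ (δ / 8) * Nat.totient n := by
    refine b1.trans (mul_le_mul_of_nonneg_right (b2.trans ?_) hφ)
    exact mul_le_mul_of_nonneg_right (le_max_left _ _) hn8.le
  have b4 : (n : ℝ) ^ (1 - δ / 8) ≤ max D 1 * Nat.totient n := by
    have e : (n : ℝ) = (n : ℝ) ^ (1 - δ / 8) * (n : ℝ) ^ (δ / 8) := by
      rw [← Real.rpow_add hn0, show 1 - δ / 8 + δ / 8 = 1 by ring, Real.rpow_one]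
    have h3 : (n : ℝ) ^ (1 - δ / 8) * (n : ℝ) ^ (δ / 8) ≤ (max D 1 * Nat.totient n) * (n : ℝ) ^ (δ / 8) := by
      rw [← e]
      linarith
    exact le_of_mul_le_mul_right h3 hn8
  have b5 : (n : ℝ) ^ ((1 - δ / 8) * (1 - δ / 2)) ≤ max D 1 * (Nat.totient n : ℝ) ^ (1 - δ / 2) := by
    rw [Real.rpow_mul hn0.le]
    calc ((n : ℝ) ^ (1 - δ / 8)) ^ (1 - δ / 2) ≤ (max D 1 * Nat.totient n) ^ (1 - δ / 2) :=
          Real.rpow_le_rpow (by positivity) b4 (by linarith)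
      _ = (max D 1) ^ (1 - δ / 2) * (Nat.totient n : ℝ) ^ (1 - δ / 2) := Real.mul_rpow (by positivity) hφ
      _ ≤ (max D 1) ^ (1 : ℝ) * (Nat.totient n : ℝ) ^ (1 - δ / 2) := by
          refine mul_le_mul_of_nonneg_right (Real.rpow_le_rpow_of_exponent_le hD1 (by linarith)) (by positivity)
      _ = _ := by rw [Real.rpow_one]
  have b6 : max D 1 * ((n : ℝ) ^ (1 - δ) + 1) ≤ max D 1 * (Nat.totient n : ℝ) ^ (1 - δ / 2) := by
    refine le_trans (le_of_eq ?_) (a1.trans b5)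
    ring
  exact le_of_mul_le_mul_left b6 (by linarith)

end Pool.Agent.U951.TR.Tot
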