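import Mathlib

/-!
# Counting lemmas: from sets of natural numbers to sets with a height
-/

set_option autoImplicit false

namespace Pool.Agent.U951.TR

open Classical in
/-- a count of a set of natural numbers, in the form needed by the tools -/
theorem count_of_card (Bad : Set ℕ) {s : ℝ} (hs : 0 ≤ s)
    (hP : ∀ ε : ℝ, 0 < ε → ∃ C : ℝ, ∀ X : ℕ, 1 ≤ X →
      (((Finset.Ioc 0 X).filter (fun m => m ∈ Bad)).card : ℝ) ≤ C * (X : ℝ) ^ (s + ε)) (ε : ℝ) (hε : 0 < ε) :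
    ∃ C : ℝ, ∀ X : ℝ, 1 ≤ X →
      {t : ℕ | t ∈ {t : ℕ | 1 ≤ t ∧ t ∈ Bad} ∧ (t : ℝ) ≤ X}.Finite ∧
        ({t : ℕ | t ∈ {t : ℕ | 1 ≤ t ∧ t ∈ Bad} ∧ (t : ℝ) ≤ X}.ncard : ℝ) ≤ C * X ^ (s + ε) := by
  obtain ⟨C, hC⟩ := hP ε hε
  refine ⟨|C|, fun X hX => ?_⟩
  have h0 : 1 ≤ ⌊X⌋₊ := Nat.one_le_floor_iff _ |>.2 hX
  have heq : {t : ℕ | t ∈ {t : ℕ | 1 ≤ t ∧ t ∈ Bad} ∧ (t : ℝ) ≤ X} =
      (((Finset.Ioc 0 ⌊X⌋₊).filter (fun m => m ∈ Bad) : Finset ℕ) : Set ℕ) := by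
    ext t
    simp only [Set.mem_ofPred_eq, Finset.coe_filter, Finset.mem_Ioc]
    constructor
    · rintro ⟨⟨h1, h2⟩, h3⟩
      exact ⟨⟨h1, Nat.le_floor h3⟩, h2⟩
    · rintro ⟨⟨h1, h2⟩, h3⟩
      exact ⟨⟨h1, h3⟩, (Nat.cast_le.2 h2).trans (Nat.floor_le (by linarith))⟩
  rw [heq]
  refine ⟨Finset.finite_toSet _, ?_⟩
  rw [Set.ncard_coe_finset]
  have h1 := hC ⌊X⌋₊ h0
  have h2 : ((⌊X⌋₊ : ℕ) : ℝ) ^ (s + ε) ≤ X ^ (s + ε) :=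
    Real.rpow_le_rpow (Nat.cast_nonneg _) (Nat.floor_le (by linarith)) (by linarith)
  calc (((Finset.Ioc 0 ⌊X⌋₊).filter (fun m => m ∈ Bad)).card : ℝ) ≤ C * ((⌊X⌋₊ : ℕ) : ℝ) ^ (s + ε) := h1
    _ ≤ |C| * ((⌊X⌋₊ : ℕ) : ℝ) ^ (s + ε) :=
        mul_le_mul_of_nonneg_right (le_abs_self C) (Real.rpow_nonneg (Nat.cast_nonneg _) _)
    _ ≤ |C| * X ^ (s + ε) := mul_le_mul_of_nonneg_left h2 (abs_nonneg C)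

end Pool.Agent.U951.TR
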