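import Pool.Agent.U951.TR.FracE
import Pool.Agent.Results.MP_4b482e_nt.PolynomialsInLogs

set_option autoImplicit false

/-!
# Tuples of natural numbers and of integers whose quotients are exceptional for polynomials in logarithms (helper951)
-/

namespace Pool.Agent.U951.TR.PLog

open Finset
open Pool.Agent.U951.TR.Frac
open Pool.Agent.Results.MP_4b482e_nt.PolynomialsInLogs (numbers Exceptional)

/-- a relation of heights `U`, `V` -/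
def Rel (n : ℕ) {M : ℕ} (Q : Fin M → Polynomial ℝ) (d : ℕ) (q : Fin n → ℚ) (U V : ℝ) : Prop :=
  ∃ P : MvPolynomial (Option (Fin n × Option (Fin M))) ℤ, P ≠ 0 ∧ (∀ i, P.degreeOf i ≤ d) ∧
    (∀ e, |((P.coeff e : ℤ) : ℝ)| ≤ U) ∧ |MvPolynomial.aeval (numbers Q q) P| ≤ V

lemma Rel.mono (n : ℕ) {M : ℕ} (Q : Fin M → Polynomial ℝ) (d : ℕ) (q : Fin n → ℚ) (U V U' V' : ℝ) (hU : U ≤ U')
    (hV : V ≤ V') (h : Rel n Q d q U V) : Rel n Q d q U' V' := by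
  obtain ⟨P, h1, h2, h3, h4⟩ := h
  exact ⟨P, h1, h2, fun s => (h3 s).trans hU, h4.trans hV⟩

/-- the saving -/
noncomputable def cn (n M d : ℕ) : ℝ := 1 / (((n : ℝ) + 1) * (((d : ℝ) + 1) ^ ((M + 1) * n + 1) + 1))

lemma cn_pos (n M d : ℕ) : 0 < cn n M d := by unfold cn; positivity

lemma input {n M : ℕ} (hn : 1 ≤ n) (d : ℕ) (Q : Fin M → Polynomial ℝ)
    (hQ : ∀ (c0 : ℤ) (c : Fin M → ℤ),
      (Polynomial.C (c0 : ℝ) * Polynomial.X + ∑ k, Polynomial.C (c k : ℝ) * Q k).natDegree = 0 → c0 = 0 ∧ c = 0)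
    {a b A : ℝ} (ha : 0 < a) (hab : a < b) (hA : 0 ≤ A) :
    ∃ B C : ℝ, 0 ≤ B ∧
    (∀ T : ℕ, 1 ≤ T → ({α : Fin (n * 2) → ℤ | (∀ i, |α i| ≤ (T : ℤ)) ∧ α ∈ Bad (Rel n Q d) a b A B}.ncard : ℝ) ≤
      C * (T : ℝ) ^ (((n * 2 : ℕ) : ℝ) - cn n M d)) ∧
    (∀ T : ℕ, 1 ≤ T → ∀ m₀ : ℕ,
      ({w : Fin (n * 2) → ℕ | (∀ i, m₀ ≤ w i ∧ w i ≤ T) ∧ (fun i => (w i : ℤ)) ∈ Bad (Rel n Q d) a b A B}.ncard : ℝ) ≤
      C * (T : ℝ) ^ (((n * 2 : ℕ) : ℝ) - cn n M d)) := by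
  have hD : (0 : ℝ) < ((d : ℝ) + 1) ^ ((M + 1) * n + 1) + 1 := by positivity
  have hD2 : (2 : ℝ) ≤ ((d : ℝ) + 1) ^ ((M + 1) * n + 1) + 1 := by
    have : (1 : ℝ) ≤ ((d : ℝ) + 1) ^ ((M + 1) * n + 1) := one_le_pow₀ (by linarith [(Nat.cast_nonneg d : (0 : ℝ) ≤ d)])
    linarith
  obtain ⟨β, hβ⟩ : ∃ β : ℝ, β = 2 - 1 / (((d : ℝ) + 1) ^ ((M + 1) * n + 1) + 1) := ⟨_, rfl⟩
  have hx : 0 < 1 / (((d : ℝ) + 1) ^ ((M + 1) * n + 1) + 1) := by positivity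
  have hx2 : 1 / (((d : ℝ) + 1) ^ ((M + 1) * n + 1) + 1) ≤ 1 / 2 := one_div_le_one_div_of_le (by norm_num) hD2
  have hβ1 : 2 - 2 / (((d : ℝ) + 1) ^ ((M + 1) * n + 1) + 1) < β := by
    rw [hβ]
    have : 2 / (((d : ℝ) + 1) ^ ((M + 1) * n + 1) + 1) = 2 * (1 / (((d : ℝ) + 1) ^ ((M + 1) * n + 1) + 1)) := by ring
    linarith
  have hβ0 : 0 < β := by rw [hβ]; linarith
  have hβ2 : β < 2 := by rw [hβ]; linarith
  obtain ⟨B, C, h0⟩ := Pool.Agent.Results.MP_4b482e_nt.PolynomialsInLogs.result M n d hn Q hQ A a b β hA ha hab hβ1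
  have hce : (2 - β) / ((n : ℝ) + 1) = cn n M d := by
    unfold cn
    rw [hβ]
    field_simp
    ring
  have h : ∀ T : ℝ, 1 ≤ T → {q : Fin n → ℚ | (∀ j, a ≤ q j ∧ q j ≤ b ∧ ((q j).den : ℝ) ≤ T) ∧
      Rel n Q d q (T ^ A) (T ^ (-B))}.Finite ∧
      ({q : Fin n → ℚ | (∀ j, a ≤ q j ∧ q j ≤ b ∧ ((q j).den : ℝ) ≤ T) ∧
        Rel n Q d q (T ^ A) (T ^ (-B))}.ncard : ℝ) ≤ C * T ^ (2 * ((n : ℝ) - 1) + β) := by
    intro T hT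
    have he : {q : Fin n → ℚ | (∀ j, a ≤ q j ∧ q j ≤ b ∧ ((q j).den : ℝ) ≤ T) ∧
        Rel n Q d q (T ^ A) (T ^ (-B))} = Exceptional n d Q a b A B T := by
      ext q
      simp only [Exceptional, Set.mem_ofPred_eq, Rel, Set.mem_Icc, and_assoc]
    rw [he]
    exact h0 T hT
  obtain ⟨C₁, hC₁, h1⟩ := count_int hn hβ0 hβ2 (a := a) (b := b) (B := B) (C := C) hA (Rel n Q d) (Rel.mono n Q d) h
  obtain ⟨C₂, hC₂, h2⟩ := count_nat hn hβ0 hβ2 (a := a) (b := b) (B := B) (C := C) hA (Rel n Q d) (Rel.mono n Q d) h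
  refine ⟨2 * max B 0, max C₁ C₂, by positivity, fun T hT => ?_, fun T hT m₀ => ?_⟩
  · rw [← hce]
    exact (h1 T hT).trans (mul_le_mul_of_nonneg_right (le_max_left _ _) (by positivity))
  · rw [← hce]
    exact (h2 T hT m₀).trans (mul_le_mul_of_nonneg_right (le_max_right _ _) (by positivity))

end Pool.Agent.U951.TR.PLog
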