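import Pool.Agent.U951.TR.Mat
import Pool.Agent.Results.MP_7de521_nt.AlmostAllSubgroups
import Pool.Agent.Results.MP_7de521_nt.NormOneTori
import Pool.Agent.Results.MP_7de521_nt.PadicAlmostAllSubgroups
import Pool.Agent.Results.MP_7de521_nt.NormOneToriPadic

set_option autoImplicit false

/-!
# Closures of finitely generated groups of rational points: the number of the exceptional matrices (helper951)

The structures `Data` and `Data₁` are those of `MixedPolynomials` (helper449).
-/

namespace Pool.Agent.U951.TR.Mat

open Module
open Pool.Agent.Results.MP_7de521_nt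

/-- A number field of degree `n` and `N` elements with multiplicatively independent conjugates. -/
structure Data (n N : ℕ) where
  /-- the number field -/
  K : Type
  /-- it is a field -/
  field : Field K
  /-- it is a number field -/
  numberField : NumberField K
  /-- it has degree `n` -/
  degree : finrank ℚ K = n
  /-- the elements -/
  γ : Fin N → Kˣ
  /-- their conjugates are multiplicatively independent -/
  independent : AlmostAllSubgroups.IndependentConjugates K γ

/-- A number field of degree `n` and `N` admissible elements of norm one. -/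
structure Data₁ (n N : ℕ) where
  /-- the number field -/
  K : Type
  /-- it is a field -/
  field : Field K
  /-- it is a number field -/
  numberField : NumberField K
  /-- it has degree `n` -/
  degree : finrank ℚ K = n
  /-- the elements -/
  γ : Fin N → Kˣ
  /-- they are admissible -/
  admissible : NormOneTori.Admissible K γ

/-- A number field of degree `n` and `N` elements such that their conjugates and the number `p` are multiplicatively
independent. -/
structure PData (p : ℕ) [Fact p.Prime] (n N : ℕ) where
  /-- the number field -/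
  K : Type
  /-- it is a field -/
  field : Field K
  /-- it is a number field -/
  numberField : NumberField K
  /-- it has degree `n` -/
  degree : finrank ℚ K = n
  /-- the elements -/
  γ : Fin N → Kˣ
  /-- their conjugates and `p` are multiplicatively independent -/
  independent : PadicAlmostAllSubgroups.IndependentConjugates p K γ

/-- A number field of degree `n` and `N` admissible elements of norm one. -/
structure PData₁ (n N : ℕ) where
  /-- the number field -/
  K : Type
  /-- it is a field -/
  field : Field K
  /-- it is a number field -/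
  numberField : NumberField K
  /-- it has degree `n` -/
  degree : finrank ℚ K = n
  /-- the elements -/
  γ : Fin N → Kˣ
  /-- they are admissible -/
  admissible : NormOneToriPadic.Admissible K γ

/-- For all matrices `m` of integers with the absolute values `w`, all subgroups of the group generated by the `∏_x γ_x ^
(m_{i x})` have the expected closures in the real points of `R_{K/ℚ}(G_m)`. -/
def Expected {n l N : ℕ} (D : Data n N) (w : Fin (l * N) → ℕ) : Prop :=
  letI := D.field
  letI := D.numberField
  ∀ m : Fin l → Fin N → ℤ, Abs w m → AlmostAllSubgroups.ExpectedForSubgroups D.K D.γ m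

/-- The same in the real points of the norm one torus. -/
def Expected₁ {n l N : ℕ} (D : Data₁ n N) (w : Fin (l * N) → ℕ) : Prop :=
  letI := D.field
  letI := D.numberField
  ∀ m : Fin l → Fin N → ℤ, Abs w m → NormOneTori.ExpectedReal D.K D.γ m

/-- For all matrices `m` of integers with the absolute values `w`, any at most `n` multiplicatively independent elements
of the group generated by the `∏_x γ_x ^ (m_{i x})` are independent over `ℤ_p` in the `p`-adic points of `R_{K/ℚ}(G_m)`. -/
def ExpectedP {p : ℕ} [Fact p.Prime] {n l N : ℕ} (D : PData p n N) (w : Fin (l * N) → ℕ) : Prop :=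
  letI := D.field
  letI := D.numberField
  ∀ m : Fin l → Fin N → ℤ, Abs w m → PadicAlmostAllSubgroups.ExpectedForSubgroups p D.K D.γ m

/-- The same in the `p`-adic points of the norm one torus, with at most `n - 1` elements. -/
def ExpectedP₁ (p : ℕ) [Fact p.Prime] {n l N : ℕ} (D : PData₁ n N) (w : Fin (l * N) → ℕ) : Prop :=
  letI := D.field
  letI := D.numberField
  ∀ m : Fin l → Fin N → ℤ, Abs w m → NormOneToriPadic.ExpectedPadic p D.K D.γ m

/-- `P v` holds for all but `O(X ^ (l N - (N - c)))` of the tuples of natural numbers from `2` to `X`, uniformly in `v`. -/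
def Few {ι : Sort*} (l N c : ℕ) (P : ι → (Fin (l * N) → ℕ) → Prop) : Prop :=
  ∃ C : ℝ, ∀ (v : ι) (X : ℕ), 1 ≤ X →
    ({w : Fin (l * N) → ℕ | (∀ i, 2 ≤ w i ∧ w i ≤ X) ∧ ¬ P v w}.ncard : ℝ) ≤
      C * (X : ℝ) ^ (((l * N : ℕ) : ℝ) - ((N : ℝ) - c))

/-- the number of the exceptional matrices -/
theorem counts (n l : ℕ) (hl : 1 ≤ l) : ∃ c : ℕ, ∀ N : ℕ,
    Few l N c (fun D : Data n N => Expected D) ∧
    (2 ≤ n → Few l N c (fun D : Data₁ n N => Expected₁ D)) ∧
    ∀ (p : ℕ) [Fact p.Prime], Few l N c (fun D : PData p n N => ExpectedP D) ∧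
      Few l N c (fun D : PData₁ n N => ExpectedP₁ p D) := by
  obtain ⟨c₁, h₁⟩ := AlmostAllSubgroups.result n l
  obtain ⟨c₂, h₂⟩ : ∃ c₂ : ℕ, ∀ N : ℕ, 2 ≤ n → ∀ c : ℕ, c₂ ≤ c → Few l N c (fun D : Data₁ n N => Expected₁ D) := by
    by_cases hn : 2 ≤ n
    · obtain ⟨c₂, h⟩ := NormOneTori.result n l hn
      refine ⟨c₂, fun N _ c hc => ?_⟩
      obtain ⟨C, hC⟩ := h N
      refine ⟨(C * 3 ^ ((l - 1) * N + c) : ℕ), fun D X hX => ?_⟩
      letI := D.field
      letI := D.numberField
      exact count hl hc (hC D.K D.degree D.γ D.admissible) X hX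
    · exact ⟨0, fun _ h => absurd h hn⟩
  obtain ⟨c₃, h₃⟩ := PadicAlmostAllSubgroups.result n l
  obtain ⟨c₄, h₄⟩ := NormOneToriPadic.result n l
  refine ⟨c₁ + c₂ + c₃ + c₄, fun N => ⟨?_, fun hn => h₂ N hn _ (by omega), fun p _ => ⟨?_, ?_⟩⟩⟩
  · obtain ⟨C, hC⟩ := h₁ N
    refine ⟨(C * 3 ^ ((l - 1) * N + (c₁ + c₂ + c₃ + c₄)) : ℕ), fun D X hX => ?_⟩
    letI := D.field
    letI := D.numberField
    exact count hl (by omega) (hC D.K D.degree D.γ D.independent) X hX
  · obtain ⟨C, hC⟩ := h₃ p N
    refine ⟨(C * 3 ^ ((l - 1) * N + (c₁ + c₂ + c₃ + c₄)) : ℕ), fun D X hX => ?_⟩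
    letI := D.field
    letI := D.numberField
    exact count hl (by omega) (hC D.K D.degree D.γ D.independent) X hX
  · obtain ⟨C, hC⟩ := h₄ p N
    refine ⟨(C * 3 ^ ((l - 1) * N + (c₁ + c₂ + c₃ + c₄)) : ℕ), fun D X hX => ?_⟩
    letI := D.field
    letI := D.numberField
    exact count hl (by omega) (hC D.K D.degree D.γ D.admissible) X hX

end Pool.Agent.U951.TR.Mat
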