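import Pool.Agent.U857.AF.Main

set_option autoImplicit false

/-!
# Few exceptions for finite families of cusp forms of weight `3/2` (helper951, after helper857)

The count for one form is `Pool.Agent.U857.AF.count` (helper857).
-/

namespace Pool.Agent.U951.TR.CuspF

open Finset UpperHalfPlane Pool.Agent.U857.AF

/-- The bound of the question with the exponent `1 / 4 + ε` at the integer `r`, for all linear combinations of the forms
with the coefficients `a l`: `|∑ c_l a_l(r)| ≤ (∑ |c_l|) r ^ (1 / 4 + ε)` for all complex `c_l`. -/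
def Bound {m : ℕ} (a : Fin m → ℕ → ℂ) (ε : ℝ) (r : ℕ) : Prop :=
  ∀ c : Fin m → ℂ, ‖∑ l, c l * a l r‖ ≤ (∑ l, ‖c l‖) * (r : ℝ) ^ (1 / 4 + ε)

theorem few {m : ℕ} {N : Fin m → ℕ} {χ : ∀ l, DirichletCharacter ℂ (N l)} {f : Fin m → ℍ → ℂ} {a : Fin m → ℕ → ℂ}
    (hN : ∀ l, N l ≠ 0) (hf : ∀ l, IsCuspForm (N l) (χ l) (f l)) (ha : ∀ l, Coefficients (f l) (a l))
    {ε : ℝ} (hε : 0 < ε) (hε2 : ε < 1 / 2) :
    ∃ K : ℝ, 0 ≤ K ∧ ∀ X : ℕ, ({r : ℕ | 1 ≤ r ∧ r ≤ X ∧ ¬ Bound a ε r}.ncard : ℝ) ≤ K * (X : ℝ) ^ (1 - 2 * ε) := by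
  classical
  obtain ⟨K, hK0, hK⟩ := family a (ε := ε) (fun l => by
    have : NeZero (N l) := ⟨hN l⟩
    obtain ⟨C, hC, h1⟩ := bound (N l) (χ l) (f l) (hf l)
    obtain ⟨C', hC', h2⟩ := mean_square (ha l) hC h1
    exact count hC' h2 hε hε2)
  refine ⟨K, hK0, fun X => le_trans (Nat.cast_le.2 ?_) (hK X)⟩
  rw [← Set.ncard_coe_finset]
  refine Set.ncard_le_ncard ?_ (finite_toSet _)
  rintro r ⟨h1, h2, h3⟩
  rw [mem_coe, mem_filter, mem_Icc]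
  refine ⟨⟨h1, h2⟩, ?_⟩
  by_contra hcon
  push Not at hcon
  refine h3 fun c => ?_
  have h4 : ∀ l, ‖a l r‖ ≤ (r : ℝ) ^ (1 / 4 + ε) := fun l => by
    have := hcon l
    unfold bad at this
    exact not_lt.1 this
  calc ‖∑ l, c l * a l r‖ ≤ ∑ l, ‖c l * a l r‖ := norm_sum_le _ _
    _ ≤ ∑ l, ‖c l‖ * (r : ℝ) ^ (1 / 4 + ε) := sum_le_sum fun l _ => by
        rw [norm_mul]
        exact mul_le_mul_of_nonneg_left (h4 l) (norm_nonneg _)
    _ = _ := by rw [sum_mul]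

end Pool.Agent.U951.TR.CuspF
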