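import Pool.Agent.S821.PoorLaw

set_option autoImplicit false

/-!
# Real intervals, from the integral ones (helper951)
-/

namespace Pool.Agent.U951.TR.Sch

open Finset Filter
open Pool.Agent.S821.Poor (Dense)

/-- `y < p < y + √y` and the numbers of primes in real intervals -/
def Real' (c δ w x : ℝ) : Prop :=
  (∀ y : ℝ, |y - x| ≤ x ^ w → |y + Real.sqrt y - x| ≤ x ^ w → ∃ p : ℕ, p.Prime ∧ y < p ∧ (p : ℝ) < y + Real.sqrt y) ∧
  ∀ y h : ℝ, |y - x| ≤ x ^ w → |y + h - x| ≤ x ^ w → y ^ (1 / 2 - δ : ℝ) ≤ h →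
    c * h / Real.log y ≤ ({p : ℕ | p.Prime ∧ y < p ∧ (p : ℝ) < y + h}.ncard : ℝ)

theorem real_of {c δ w : ℝ} (hc : 0 < c) (hδ : 0 < δ) (hδ1 : δ ≤ 1 / 4) (hw : w < 1) : ∃ x₀ : ℝ, ∀ x : ℝ, x₀ ≤ x →
    Dense c (1 / 2 - δ) w x → Real' (c / 4) (δ / 2) w x := by
  have t1 : Tendsto (fun x : ℝ => (x / 2) ^ (δ / 2)) atTop atTop :=
    (tendsto_rpow_atTop (by positivity)).comp (tendsto_id.atTop_div_const (by norm_num))
  have t2 : Tendsto (fun x : ℝ => x ^ (1 - w)) atTop atTop := tendsto_rpow_atTop (by linarith)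
  obtain ⟨x₀, hx₀⟩ := eventually_atTop.1 ((t1.eventually_ge_atTop 4).and
    ((t2.eventually_ge_atTop 2).and (eventually_ge_atTop 4)))
  refine ⟨x₀, fun x hx hD => ?_⟩
  obtain ⟨h4, h2, hx4⟩ := hx₀ x hx
  have hx0 : 0 < x := by linarith
  have hxw : x ^ w ≤ x / 2 := by
    have e : x ^ w * x ^ (1 - w) = x := by
      rw [← Real.rpow_add hx0, add_sub_cancel, Real.rpow_one]
    have hp : 0 < x ^ w := Real.rpow_pos_of_pos hx0 _
    nlinarith
  have key : ∀ y h : ℝ, |y - x| ≤ x ^ w → |y + h - x| ≤ x ^ w → y ^ (1 / 2 - δ / 2 : ℝ) ≤ h →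
      c / 4 * h / Real.log y ≤ ({p : ℕ | p.Prime ∧ y < p ∧ (p : ℝ) < y + h}.ncard : ℝ) := by
    intro y h hy hyh hh
    have hy1 := (abs_le.1 hy).1
    have hy2 : x / 2 ≤ y := by linarith
    have hy3 : (2 : ℝ) ≤ y := by linarith
    have hy0 : 0 < y := by linarith
    have g1 : (4 : ℝ) ≤ y ^ (δ / 2) := h4.trans (Real.rpow_le_rpow (by positivity) hy2 (by positivity))
    have g2 : (1 : ℝ) ≤ y ^ (1 / 2 - δ) := Real.one_le_rpow (by linarith) (by linarith)
    have g3 : 4 * y ^ (1 / 2 - δ) ≤ h := by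
      refine le_trans ?_ hh
      have e : y ^ (1 / 2 - δ / 2 : ℝ) = y ^ (δ / 2) * y ^ (1 / 2 - δ) := by
        rw [← Real.rpow_add hy0]
        congr 1
        ring
      rw [e]
      exact mul_le_mul_of_nonneg_right g1 (by positivity)
    have g4 : (4 : ℝ) ≤ h := by linarith
    obtain ⟨a, ha⟩ : ∃ a : ℕ, a = ⌈y⌉₊ := ⟨_, rfl⟩
    have ha1 : y ≤ a := by rw [ha]; exact Nat.le_ceil y
    have ha2 : (a : ℝ) < y + 1 := by rw [ha]; exact Nat.ceil_lt_add_one hy0.le
    obtain ⟨H, hH⟩ : ∃ H : ℕ, H = ⌈h⌉₊ - 2 := ⟨_, rfl⟩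
    have hH0 : 4 ≤ ⌈h⌉₊ := by
      have : ((4 : ℕ) : ℝ) ≤ ⌈h⌉₊ := by
        push_cast
        exact g4.trans (Nat.le_ceil h)
      exact_mod_cast this
    have hHc : (H : ℝ) = ⌈h⌉₊ - 2 := by
      rw [hH, Nat.cast_sub (by omega)]
      norm_num
    have hH1 : h - 2 ≤ H := by
      rw [hHc]
      linarith [Nat.le_ceil h]
    have hH2 : (H : ℝ) < h - 1 := by
      rw [hHc]
      linarith [Nat.ceil_lt_add_one (by linarith : 0 ≤ h)]
    have hyh2 := abs_le.1 hyh
    have g5 : |(a : ℝ) - x| ≤ x ^ w := by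
      rw [abs_le]
      have : (0 : ℝ) ≤ H := Nat.cast_nonneg _
      constructor
      · linarith
      · linarith
    have g6 : |(a : ℝ) + H - x| ≤ x ^ w := by
      rw [abs_le]
      have : (0 : ℝ) ≤ H := Nat.cast_nonneg _
      constructor
      · linarith
      · linarith
    have g7 : (a : ℝ) ^ (1 / 2 - δ) ≤ H := by
      have ha3 : (a : ℝ) ≤ 2 * y := by linarith
      calc (a : ℝ) ^ (1 / 2 - δ) ≤ (2 * y) ^ (1 / 2 - δ) :=
            Real.rpow_le_rpow (Nat.cast_nonneg _) ha3 (by linarith)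
        _ = 2 ^ (1 / 2 - δ) * y ^ (1 / 2 - δ) := Real.mul_rpow (by norm_num) hy0.le
        _ ≤ 2 ^ (1 : ℝ) * y ^ (1 / 2 - δ) := mul_le_mul_of_nonneg_right
            (Real.rpow_le_rpow_of_exponent_le (by norm_num) (by linarith)) (by positivity)
        _ = 2 * y ^ (1 / 2 - δ) := by rw [Real.rpow_one]
        _ ≤ h - 2 := by linarith
        _ ≤ H := hH1
    have g8 := hD a H g5 g6 g7
    have hla : 0 < Real.log y := Real.log_pos (by linarith)
    have hlb : Real.log a ≤ 2 * Real.log y := by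
      have : Real.log a ≤ Real.log (y ^ 2) := Real.log_le_log (by linarith) (by nlinarith)
      rwa [Real.log_pow, Nat.cast_two] at this
    have hlc : 0 < Real.log a := Real.log_pos (by linarith)
    have g9 : c / 4 * h / Real.log y ≤ c * H / Real.log a := by
      rw [div_le_div_iff₀ hla hlc]
      have h5 : h / 2 ≤ H := by linarith
      calc c / 4 * h * Real.log a ≤ c / 4 * h * (2 * Real.log y) := by gcongr
        _ = c * (h / 2) * Real.log y := by ring
        _ ≤ c * H * Real.log y := by gcongr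
    refine (g9.trans g8).trans (Nat.cast_le.2 ?_)
    rw [← Set.ncard_coe_finset]
    refine Set.ncard_le_ncard ?_ ?_
    · intro p hp
      rw [mem_coe, mem_filter, mem_Ioc] at hp
      obtain ⟨⟨p1, p2⟩, p3⟩ := hp
      have p1' : (a : ℝ) < p := by exact_mod_cast p1
      have p2' : (p : ℝ) ≤ a + H := by exact_mod_cast p2
      exact ⟨p3, by linarith, by linarith⟩
    · refine (Set.finite_Iio ⌈y + h⌉₊).subset ?_
      rintro p ⟨-, -, hp⟩
      exact Nat.lt_ceil.2 hp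
  refine ⟨fun y hy hys => ?_, key⟩
  have hy1 := (abs_le.1 hy).1
  have hy3 : (2 : ℝ) ≤ y := by linarith
  have hsq : y ^ (1 / 2 - δ / 2 : ℝ) ≤ Real.sqrt y := by
    rw [Real.sqrt_eq_rpow]
    exact Real.rpow_le_rpow_of_exponent_le (by linarith) (by linarith)
  have h5 := key y (Real.sqrt y) hy hys hsq
  have hla : 0 < Real.log y := Real.log_pos (by linarith)
  have hs : 0 < Real.sqrt y := Real.sqrt_pos.2 (by linarith)
  have h6 : 0 < ({p : ℕ | p.Prime ∧ y < p ∧ (p : ℝ) < y + Real.sqrt y}.ncard : ℝ) := lt_of_lt_of_le (by positivity) h5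
  have h7 : {p : ℕ | p.Prime ∧ y < p ∧ (p : ℝ) < y + Real.sqrt y}.Nonempty := by
    by_contra hcon
    rw [Set.not_nonempty_iff_eq_empty] at hcon
    rw [hcon, Set.ncard_empty, Nat.cast_zero] at h6
    exact lt_irrefl _ h6
  obtain ⟨p, p1, p2, p3⟩ := h7
  exact ⟨p, p1, p2, p3⟩

end Pool.Agent.U951.TR.Sch
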