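import Pool.Agent.Results.MP_e21eee_nt.PaucityLatticeChain

set_option autoImplicit false

/-!
# Tuples `x` for which Vinogradov's system has a nontrivial solution `y` (helper951)
-/

namespace Pool.Agent.U951.TR.Vino

open Finset

/-- The only solutions `y` in positive integers of the system `x_1^j + ⋯ + x_s^j = y_1^j + ⋯ + y_s^j`, `1 ≤ j ≤ k`, are
the permutations of `x`. -/
def OnlyTrivial (s k : ℕ) (x : Fin s → ℕ) : Prop :=
  ∀ y : Fin s → ℕ, (∀ i, 1 ≤ y i) → (∀ j : Fin k, ∑ i, x i ^ (j.val + 1) = ∑ i, y i ^ (j.val + 1)) →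
    ∃ σ : Equiv.Perm (Fin s), y = x ∘ σ

/-- The exponent of the starting theorem: `√(4 d s - 2 (d - 1) (d + 2) + 1) + d - 1` with `d = s - k`. -/
noncomputable def expo (s k : ℕ) : ℝ :=
  Real.sqrt (4 * ((s : ℝ) - k) * s - 2 * ((s : ℝ) - k - 1) * ((s : ℝ) - k + 2) + 1) + ((s : ℝ) - k - 1)

theorem expo_lt {s k : ℕ} (hks : k < s) (h : 2 * s * (s - 1) + 4 < 3 * k ^ 2) : expo s k < s := by
  obtain ⟨t, rfl⟩ : ∃ t, s = t + 1 := ⟨s - 1, by omega⟩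
  rw [Nat.add_sub_cancel] at h
  have h1 : 2 * ((t : ℝ) + 1) * t + 4 < 3 * (k : ℝ) ^ 2 := by exact_mod_cast h
  unfold expo
  push_cast
  have h2 : Real.sqrt (4 * ((t : ℝ) + 1 - k) * (t + 1) - 2 * ((t : ℝ) + 1 - k - 1) * ((t : ℝ) + 1 - k + 2) + 1) < k + 1 := by
    rw [Real.sqrt_lt' (by positivity)]
    nlinarith
  linarith

theorem count {s k : ℕ} (hk : 1 ≤ k) (hks : k < s) {ε : ℝ} (hε : 0 < ε) : ∃ C : ℝ, ∀ X : ℕ, 1 ≤ X →
    ({x : Fin s → ℕ | (∀ i, 2 ≤ x i ∧ x i ≤ X) ∧ ¬ OnlyTrivial s k x}.ncard : ℝ) ≤ C * (X : ℝ) ^ (expo s k + ε) := by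
  classical
  obtain ⟨C, hC⟩ := (Pool.Agent.Results.MP_e21eee_nt.PaucityLatticeChain.result s k hks).1 ε hε
  have hex : ∀ x : Fin s → ℕ, ¬ OnlyTrivial s k x → ∃ y : Fin s → ℕ, (∀ i, 1 ≤ y i) ∧
      (∀ j : Fin k, ∑ i, x i ^ (j.val + 1) = ∑ i, y i ^ (j.val + 1)) ∧ ¬ ∃ σ : Equiv.Perm (Fin s), y = x ∘ σ := by
    intro x hx
    unfold OnlyTrivial at hx
    push Not at hx
    obtain ⟨y, h1, h2, h3⟩ := hx
    exact ⟨y, h1, h2, fun ⟨σ, h4⟩ => h3 σ h4⟩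
  choose! g hg1 hg2 hg3 using hex
  refine ⟨|C| * (s : ℝ) ^ (expo s k + ε), fun X hX => ?_⟩
  have hs : 1 ≤ s := by omega
  have h1 := hC (s * X) (Nat.mul_pos hs hX)
  refine le_trans (Nat.cast_le.2 ?_) (h1.trans ?_)
  · rw [← Set.ncard_coe_finset]
    refine Set.ncard_le_ncard_of_injOn (fun x : Fin s → ℕ => (x, g x)) ?_ ?_ (finite_toSet _)
    · rintro x ⟨hx, hbad⟩
      have h2 : ∀ i, x i ≤ s * X := fun i => (hx i).2.trans (Nat.le_mul_of_pos_left _ hs)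
      have h3 : ∀ i, g x i ≤ s * X := by
        intro i
        have h4 := hg2 x hbad ⟨0, hk⟩
        simp only [Nat.zero_add, pow_one] at h4
        calc g x i ≤ ∑ i, g x i := single_le_sum (fun _ _ => Nat.zero_le _) (mem_univ i)
          _ = ∑ i, x i := h4.symm
          _ ≤ ∑ _i : Fin s, X := sum_le_sum fun i _ => (hx i).2
          _ = s * X := by rw [sum_const, card_univ, Fintype.card_fin, smul_eq_mul]
      rw [mem_coe, mem_filter, mem_product, Fintype.mem_piFinset, Fintype.mem_piFinset]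
      refine ⟨⟨fun i => mem_Icc.2 ⟨(le_of_lt (lt_of_lt_of_le one_lt_two (hx i).1) : 1 ≤ x i), h2 i⟩, fun i => mem_Icc.2 ⟨hg1 x hbad i, h3 i⟩⟩,
        hg2 x hbad, hg3 x hbad⟩
    · intro x _ x' _ h
      exact congrArg Prod.fst h
  · have hX0 : (0 : ℝ) ≤ X := Nat.cast_nonneg _
    have e1 : (((s * X : ℕ) : ℝ)) ^ (expo s k + ε) = (s : ℝ) ^ (expo s k + ε) * (X : ℝ) ^ (expo s k + ε) := by
      rw [Nat.cast_mul, Real.mul_rpow (Nat.cast_nonneg _) hX0]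
    change C * (((s * X : ℕ) : ℝ)) ^ (expo s k + ε) ≤ _
    rw [e1, mul_assoc]
    exact mul_le_mul_of_nonneg_right (le_abs_self C) (by positivity)

end Pool.Agent.U951.TR.Vino
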