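import Pool.Agent.U365.POW.E
import Pool.Agent.N407.BZ.Near

set_option autoImplicit false

/-!
# The Barnes zeta function near the values of similar functions as the aliquot sum (helper951)
-/

namespace Pool.Agent.U951.TR.Barnes

open Finset
open Pool.Agent.Y616.BM Pool.Agent.Y930.Bz Pool.Agent.H131R5.BZ Pool.Agent.N407.BZ
open Pool.Agent.U365.POW (Values Dens values_set values_mono dens_mono)
open Pool.Agent.N733.TG (Expanding)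

/-- the cells next to bad cells -/
def Next (B : Set ℕ) : Set ℕ := {n | n ∈ B ∨ ∃ m ∈ B, n = m + 1}

lemma next_count {B : Set ℕ} {K s : ℝ} (hs : 0 ≤ s)
    (h : ∀ X : ℕ, 1 ≤ X → ({n : ℕ | n ≤ X ∧ n ∈ B}.ncard : ℝ) ≤ K * (X : ℝ) ^ s) (X : ℝ) (hX : 1 ≤ X) :
    {n : ℕ | n ∈ Next B ∧ (n : ℝ) ≤ X}.Finite ∧ ({n : ℕ | n ∈ Next B ∧ (n : ℝ) ≤ X}.ncard : ℝ) ≤ 2 * |K| * X ^ s := by
  have hX0 : 0 < X := by linarith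
  have hX1 : 1 ≤ ⌊X⌋₊ := Nat.le_floor (by exact_mod_cast hX)
  have hfin : {n : ℕ | n ∈ Next B ∧ (n : ℝ) ≤ X}.Finite := by
    apply (Set.finite_Icc 0 ⌊X⌋₊).subset
    rintro t ⟨-, ht⟩
    exact ⟨Nat.zero_le _, Nat.le_floor ht⟩
  refine ⟨hfin, ?_⟩
  have hf2 : {n : ℕ | n ≤ ⌊X⌋₊ ∧ n ∈ B}.Finite := by
    apply (Set.finite_Icc 0 ⌊X⌋₊).subset
    rintro t ⟨ht, -⟩
    exact ⟨Nat.zero_le _, ht⟩
  have hsub : {n : ℕ | n ∈ Next B ∧ (n : ℝ) ≤ X} ⊆ {n : ℕ | n ≤ ⌊X⌋₊ ∧ n ∈ B} ∪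
      (fun m => m + 1) '' {n : ℕ | n ≤ ⌊X⌋₊ ∧ n ∈ B} := by
    rintro n ⟨h1, h2⟩
    have h3 : n ≤ ⌊X⌋₊ := Nat.le_floor h2
    rcases h1 with h1 | ⟨m, h1, rfl⟩
    · exact Or.inl ⟨h3, h1⟩
    · exact Or.inr ⟨m, ⟨by omega, h1⟩, rfl⟩
  have h1 : ({n : ℕ | n ∈ Next B ∧ (n : ℝ) ≤ X}.ncard : ℝ) ≤
      ({n : ℕ | n ≤ ⌊X⌋₊ ∧ n ∈ B}.ncard : ℝ) + ({n : ℕ | n ≤ ⌊X⌋₊ ∧ n ∈ B}.ncard : ℝ) := by
    have h2 := (Set.ncard_le_ncard hsub (hf2.union (hf2.image _))).trans (Set.ncard_union_le _ _)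
    have h3 := Set.ncard_image_le (f := fun m => m + 1) hf2
    exact_mod_cast h2.trans (Nat.add_le_add_left h3 _)
  have h2 : ((⌊X⌋₊ : ℕ) : ℝ) ^ s ≤ X ^ s := Real.rpow_le_rpow (Nat.cast_nonneg _) (Nat.floor_le hX0.le) hs
  have h3 : ({n : ℕ | n ≤ ⌊X⌋₊ ∧ n ∈ B}.ncard : ℝ) ≤ |K| * X ^ s :=
    (h ⌊X⌋₊ hX1).trans ((mul_le_mul_of_nonneg_right (le_abs_self K) (by positivity)).trans
      (mul_le_mul_of_nonneg_left h2 (abs_nonneg K)))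
  linarith

/-- a real number of a window of length at least `2` lies next to an integer in the window -/
lemma next_mem {B : Set ℕ} {t x W : ℝ} (ht : 0 ≤ t) (hW : 1 ≤ W) (h : |t - x| ≤ W) (hb : ⌊t⌋₊ ∈ B) :
    ∃ n : ℕ, |(n : ℝ) - x| ≤ W ∧ n ∈ Next B := by
  have h1 : (⌊t⌋₊ : ℝ) ≤ t := Nat.floor_le ht
  have h2 : t < ⌊t⌋₊ + 1 := Nat.lt_floor_add_one t
  obtain ⟨h3, h4⟩ := abs_le.1 h
  rcases le_or_gt (x - W) (⌊t⌋₊ : ℝ) with h5 | h5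
  · exact ⟨⌊t⌋₊, abs_le.2 ⟨by linarith, by linarith⟩, Or.inl hb⟩
  · refine ⟨⌊t⌋₊ + 1, ?_, Or.inr ⟨_, hb, rfl⟩⟩
    push_cast
    exact abs_le.2 ⟨by linarith, by linarith⟩

theorem aliquot {d : ℕ} {v : Fin d → ℝ} (hv : LinearIndependent ℚ v) (hG : Good v) {r : ℕ} (hr : 2 ≤ r)
    {a : ℝ} (ha : 0 < a) {w : Fin r → ℝ} (hw : ∀ i, 0 < w i)
    (hspan : Submodule.span ℚ (Set.range w) = Submodule.span ℚ (Set.range v)) {c : ℕ → ℂ} (hc : Tay a w c)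
    (σ₁ : ℝ) {η κ : ℝ} (hη : 0 ≤ η) (hκ : 0 ≤ κ) {G : ℕ → ℝ} {D : ℝ} (hGe : Expanding G D)
    (h1 : D * max (1 - 2 * η) 0 + κ < 1) :
    (∀ ρ : ℝ, 0 < ρ → Values (D * max (1 - 2 * η) 0 + κ + ρ) (fun g => 1 ≤ g → ∀ t σ : ℝ, 2 ≤ t →
      |t - G g| ≤ (g : ℝ) ^ κ → (r : ℝ) - d / 2 ≤ σ → σ ≤ σ₁ → ‖FF a w c ((σ : ℂ) + t * Complex.I)‖ ≤ t ^ η)) ∧
    Dens (1 - (D * max (1 - 2 * η) 0 + κ)) (fun g => 1 ≤ g → ∀ t σ : ℝ, 2 ≤ t →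
      |t - G g| ≤ (g : ℝ) ^ κ → (r : ℝ) - d / 2 ≤ σ → σ ≤ σ₁ → ‖FF a w c ((σ : ℂ) + t * Complex.I)‖ ≤ t ^ η) := by
  obtain ⟨B, hB⟩ : ∃ B : Set ℕ, B = {n : ℕ | 1 ≤ n ∧ BadAt a w c ((r : ℝ) - d / 2) σ₁ η n} := ⟨_, rfl⟩
  obtain ⟨k1, k2⟩ := values_set (Next B) (fun n : ℕ => (n : ℝ)) hGe (s := max (1 - 2 * η) 0) (κ := κ) (le_max_right _ _)
    hκ h1 (fun ε hε => by
      obtain ⟨K, -, hK⟩ := ff_count hv hG hr ha hw hspan hc σ₁ hη (s := max (1 - 2 * η) 0 + ε)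
        (lt_of_le_of_lt (le_max_right (1 - 2 * η) 0) (by linarith)) (lt_of_le_of_lt (le_max_left (1 - 2 * η) 0) (by linarith))
      refine ⟨2 * |K|, fun X hX => ?_⟩
      refine next_count (B := B) (by linarith [le_max_right (1 - 2 * η) 0]) (fun Y hY => ?_) X hX
      · refine le_trans (le_of_eq ?_) (hK Y hY)
        congr 2
        ext n
        rw [hB]
        simp only [Set.mem_ofPred_eq]
        constructor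
        · rintro ⟨e1, e2, e3⟩
          exact ⟨e2, e1, e3⟩
        · rintro ⟨e1, e2, e3⟩
          exact ⟨e2, e1, e3⟩)
  have hm : ∀ g : ℕ, (∀ n : ℕ, |(n : ℝ) - G g| ≤ (g : ℝ) ^ κ → n ∉ Next B) → 1 ≤ g → ∀ t σ : ℝ, 2 ≤ t →
      |t - G g| ≤ (g : ℝ) ^ κ → (r : ℝ) - d / 2 ≤ σ → σ ≤ σ₁ → ‖FF a w c ((σ : ℂ) + t * Complex.I)‖ ≤ t ^ η := by
    intro g hg hg1 t σ ht hw' h2 h3
    by_contra h4
    have h5 := bad_floor ht h2 h3 (not_le.1 h4)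
    rw [← hB] at h5
    obtain ⟨n, hn1, hn2⟩ := next_mem (by linarith) (Real.one_le_rpow (by exact_mod_cast hg1) hκ) hw' h5
    exact hg n hn1 hn2
  exact ⟨fun ρ hρ => values_mono (k1 ρ hρ) hm, dens_mono k2 le_rfl hm⟩

end Pool.Agent.U951.TR.Barnes
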