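import Pool.Agent.U365.POW.E
import Pool.Agent.U405.RS.F2
import Pool.Agent.U536.CF.F

set_option autoImplicit false

/-!
# Properties of all integers near `G v`, for properties with few exceptions: the tools (helper951)
-/

namespace Pool.Agent.U951.TR.Few

open Finset Filter
open Pool.Agent.N733.TG (Expanding)
open Pool.Agent.U365.POW (Values Dens values_set values_mono dens_mono)
open Pool.Agent.U405.RS (PM Sparse sparse_set')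

/-- all integers `r ≥ 1` with `|r - G v| ≤ v ^ κ` have the property `P` -/
def Near (P : ℕ → Prop) (G : ℕ → ℝ) (κ : ℝ) (v : ℕ) : Prop := ∀ r : ℕ, 1 ≤ r → |(r : ℝ) - G v| ≤ (v : ℝ) ^ κ → P r

lemma counts {P : ℕ → Prop} {s K : ℝ} (hs : 0 ≤ s) (hK : 0 ≤ K)
    (h : ∀ X : ℕ, ({r : ℕ | 1 ≤ r ∧ r ≤ X ∧ ¬ P r}.ncard : ℝ) ≤ K * (X : ℝ) ^ s) (ε : ℝ) (hε : 0 < ε) :
    ∃ C' : ℝ, ∀ X : ℝ, 1 ≤ X → {t : ℕ | t ∈ {r : ℕ | 1 ≤ r ∧ ¬ P r} ∧ (t : ℝ) ≤ X}.Finite ∧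
      ({t : ℕ | t ∈ {r : ℕ | 1 ≤ r ∧ ¬ P r} ∧ (t : ℝ) ≤ X}.ncard : ℝ) ≤ C' * X ^ (s + ε) := by
  refine ⟨K, fun X hX => ?_⟩
  have hX0 : 0 ≤ X := by linarith
  have he : {t : ℕ | t ∈ {r : ℕ | 1 ≤ r ∧ ¬ P r} ∧ (t : ℝ) ≤ X} = {r : ℕ | 1 ≤ r ∧ r ≤ ⌊X⌋₊ ∧ ¬ P r} := by
    ext t
    simp only [Set.mem_ofPred_eq]
    rw [Nat.le_floor_iff hX0]
    tauto
  rw [he]
  refine ⟨(Set.finite_Icc 1 ⌊X⌋₊).subset fun t ht => ⟨ht.1, ht.2.1⟩, (h ⌊X⌋₊).trans ?_⟩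
  refine mul_le_mul_of_nonneg_left ?_ hK
  calc ((⌊X⌋₊ : ℕ) : ℝ) ^ s ≤ X ^ s := Real.rpow_le_rpow (Nat.cast_nonneg _) (Nat.floor_le hX0) hs
    _ ≤ X ^ (s + ε) := Real.rpow_le_rpow_of_exponent_le hX (by linarith)

lemma near_of {P : ℕ → Prop} {G : ℕ → ℝ} {κ : ℝ} (v : ℕ)
    (hv : ∀ t ∈ {r : ℕ | 1 ≤ r ∧ ¬ P r}, ¬ |(t : ℝ) - G v| ≤ (v : ℝ) ^ κ) : Near P G κ v := by
  intro r hr hw
  by_contra hcon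
  exact hv r ⟨hr, hcon⟩ hw

theorem values {P : ℕ → Prop} {s K : ℝ} (hs : 0 ≤ s) (hK : 0 ≤ K)
    (h : ∀ X : ℕ, ({r : ℕ | 1 ≤ r ∧ r ≤ X ∧ ¬ P r}.ncard : ℝ) ≤ K * (X : ℝ) ^ s) {G : ℕ → ℝ} {d : ℝ} (hG : Expanding G d)
    {κ e : ℝ} (hκ : 0 ≤ κ) (he : d * s + κ < e) (he1 : e ≤ 1) : Values e (Near P G κ) ∧ Dens (1 - e) (Near P G κ) := by
  obtain ⟨k1, k2⟩ := values_set {r : ℕ | 1 ≤ r ∧ ¬ P r} (fun t : ℕ => (t : ℝ)) hG hs hκ (by linarith) (counts hs hK h)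
  have hm : ∀ g : ℕ, (∀ t : ℕ, |(t : ℝ) - G g| ≤ (g : ℝ) ^ κ → t ∉ {r : ℕ | 1 ≤ r ∧ ¬ P r}) → Near P G κ g :=
    fun g hg => near_of g fun t ht h => hg t h ht
  refine ⟨?_, dens_mono k2 (by linarith) hm⟩
  have h3 := k1 (e - (d * s + κ)) (by linarith)
  rw [add_sub_cancel] at h3
  exact values_mono h3 hm

theorem sparse {P : ℕ → Prop} {s K : ℝ} (hs : 0 ≤ s) (hK : 0 ≤ K)
    (h : ∀ X : ℕ, ({r : ℕ | 1 ≤ r ∧ r ≤ X ∧ ¬ P r}.ncard : ℝ) ≤ K * (X : ℝ) ^ s) {f : ℕ → ℕ} (hf : PM f)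
    {G : ℕ → ℝ} {d : ℝ} (hG : Expanding G d) {κ : ℝ} (hκ : 0 ≤ κ) (U : ℕ) : Sparse (d * s + κ) f (Near P G κ) U :=
  sparse_set' {r : ℕ | 1 ≤ r ∧ ¬ P r} (fun t : ℕ => (t : ℝ)) hf hG hs hκ rfl (counts hs hK h) _ U fun v hv => near_of v hv

theorem common {P : ℕ → Prop} {s K : ℝ} (hs : 0 ≤ s) (hK : 0 ≤ K)
    (h : ∀ X : ℕ, ({r : ℕ | 1 ≤ r ∧ r ≤ X ∧ ¬ P r}.ncard : ℝ) ≤ K * (X : ℝ) ^ s) {f : ℕ → ℕ}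
    (hf : Pool.Agent.N733.TG.LM f) {G : ℕ → ℝ} {d : ℝ} (hG : Expanding G d) {κ ρ b c' : ℝ} (hκ : 0 ≤ κ)
    (he : d * s + κ < ρ) (hρ : ρ ≤ 1) (hb : b < 1) (hc : 0 ≤ c') (hcb : c' < 2 * b - 1) :
    ∃ N₀ : ℕ, ∀ N : ℕ, N₀ ≤ N →
      ({n : ℕ | 1 ≤ n ∧ n ≤ N ∧ ∃ v : ℕ, Pool.Agent.U536.CF.Common f b ρ N n v ∧ ¬ Near P G κ v}.ncard : ℝ) ≤
        N * Real.exp (-(Real.log N ^ c')) := by
  obtain ⟨N₀, hN₀⟩ := Pool.Agent.U536.CF.common_windows {r : ℕ | 1 ≤ r ∧ ¬ P r} (fun t : ℕ => (t : ℝ)) hf hG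
    (ρ := ρ) (b := b) (c := c') hs hκ he hρ hb hc hcb (counts hs hK h)
  refine ⟨N₀, fun N hN => le_trans (Nat.cast_le.2 (Set.ncard_le_ncard ?_ ?_)) (hN₀ N hN)⟩
  · rintro n ⟨a1, a2, v, a3, a4⟩
    refine ⟨a1, a2, v, a3, ?_⟩
    by_contra hcon
    push Not at hcon
    exact a4 (near_of v fun t ht h => absurd h (not_le.2 (hcon t ht)))
  · exact (Set.finite_Icc 1 N).subset fun n hn => ⟨hn.1, hn.2.1⟩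

end Pool.Agent.U951.TR.Few
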