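import Mathlib

set_option autoImplicit false

/-!
# Vectors of fractions which are not in lowest terms (helper951)

A bound for the number of vectors of rational numbers with denominators at most `T` in an exceptional set gives a bound for the
number of the vectors of pairs `(x_j, y_j)` of integers of absolute value at most `T` (not in lowest terms) whose quotients are in
the exceptional set, also if the exceptional set depends on the height.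
-/

namespace Pool.Agent.U951.TR.Frac

open Finset Classical

/-- the pairs of size `≤ T` with a common divisor `> G` -/
lemma bad_pairs (T G : ℕ) (hG : 1 ≤ G) :
    (((Icc (-(T : ℤ)) T ×ˢ Icc (-(T : ℤ)) T).filter
      (fun p => p.2 ≠ 0 ∧ ∃ t : ℤ, (G : ℤ) < |t| ∧ t ∣ p.1 ∧ t ∣ p.2)).card : ℝ) ≤ 9 * (T : ℝ) ^ 2 / G := by
  classical
  have hsub : (Icc (-(T : ℤ)) T ×ˢ Icc (-(T : ℤ)) T).filter
      (fun p => p.2 ≠ 0 ∧ ∃ t : ℤ, (G : ℤ) < |t| ∧ t ∣ p.1 ∧ t ∣ p.2) ⊆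
      (Ioc G T).biUnion (fun g => (Icc (-((T / g : ℕ) : ℤ)) ((T / g : ℕ) : ℤ) ×ˢ Icc (-((T / g : ℕ) : ℤ)) ((T / g : ℕ) : ℤ)).image
        (fun p : ℤ × ℤ => ((g : ℤ) * p.1, (g : ℤ) * p.2))) := by
    intro p hp
    rw [mem_filter, mem_product, mem_Icc, mem_Icc] at hp
    obtain ⟨⟨h1, h2⟩, h0, t, hG', hd1, hd2⟩ := hp
    obtain ⟨g, hg⟩ : ∃ g : ℕ, g = t.natAbs := ⟨_, rfl⟩
    have hgt : (g : ℤ) = |t| := by rw [hg, Int.natCast_natAbs]
    have hd1' : (g : ℤ) ∣ p.1 := by rw [hgt]; exact (abs_dvd _ _).2 hd1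
    have hd2' : (g : ℤ) ∣ p.2 := by rw [hgt]; exact (abs_dvd _ _).2 hd2
    obtain ⟨x, hx⟩ := hd1'
    obtain ⟨y, hy⟩ := hd2'
    have hg0 : 0 < g := by
      have : (0 : ℤ) < g := by rw [hgt]; exact lt_trans (by exact_mod_cast hG) hG'
      exact_mod_cast this
    have hb : ∀ z : ℤ, |(g : ℤ) * z| ≤ T → z ∈ Icc (-((T / g : ℕ) : ℤ)) ((T / g : ℕ) : ℤ) := by
      intro z hz
      rw [mem_Icc, ← abs_le]
      have h3 : z.natAbs ≤ T / g := by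
        rw [Nat.le_div_iff_mul_le hg0]
        have h4 : ((z.natAbs * g : ℕ) : ℤ) ≤ T := by
          rw [abs_mul, Nat.abs_cast] at hz
          push_cast
          rw [mul_comm]
          exact hz
        exact_mod_cast h4
      have h5 : ((z.natAbs : ℕ) : ℤ) ≤ ((T / g : ℕ) : ℤ) := by exact_mod_cast h3
      rwa [Int.natCast_natAbs] at h5
    rw [mem_biUnion]
    refine ⟨g, ?_, ?_⟩
    · rw [mem_Ioc]
      refine ⟨by have h6 := hG'; rw [← hgt] at h6; exact_mod_cast h6, ?_⟩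
      have h6 : (g : ℤ) ≤ |p.2| := Int.le_of_dvd (abs_pos.2 h0) ((dvd_abs _ _).2 ⟨y, hy⟩)
      have h7 : |p.2| ≤ T := abs_le.2 h2
      exact_mod_cast h6.trans h7
    · rw [mem_image]
      refine ⟨(x, y), ?_, ?_⟩
      · rw [mem_product]
        exact ⟨hb x (by rw [← hx]; exact abs_le.2 h1), hb y (by rw [← hy]; exact abs_le.2 h2)⟩
      · rw [← hx, ← hy]
  have h1 : ∀ g ∈ Ioc G T, (((Icc (-((T / g : ℕ) : ℤ)) ((T / g : ℕ) : ℤ) ×ˢ
      Icc (-((T / g : ℕ) : ℤ)) ((T / g : ℕ) : ℤ)).image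
        (fun p : ℤ × ℤ => ((g : ℤ) * p.1, (g : ℤ) * p.2))).card : ℝ) ≤ 9 * (T : ℝ) ^ 2 * ((g : ℝ) ^ 2)⁻¹ := by
    intro g hg
    rw [mem_Ioc] at hg
    have hg0 : 0 < g := by omega
    have hg0' : (0 : ℝ) < g := by exact_mod_cast hg0
    have h2 : 1 ≤ T / g := (Nat.one_le_div_iff hg0).2 hg.2
    have h3 : ((T / g : ℕ) : ℝ) ≤ (T : ℝ) / g := Nat.cast_div_le
    have h2' : (1 : ℝ) ≤ ((T / g : ℕ) : ℝ) := by exact_mod_cast h2
    have hcard : (Icc (-((T / g : ℕ) : ℤ)) ((T / g : ℕ) : ℤ)).card = 2 * (T / g) + 1 := by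
      rw [Int.card_Icc]
      omega
    have h4 : (((Icc (-((T / g : ℕ) : ℤ)) ((T / g : ℕ) : ℤ) ×ˢ
      Icc (-((T / g : ℕ) : ℤ)) ((T / g : ℕ) : ℤ)).image
        (fun p : ℤ × ℤ => ((g : ℤ) * p.1, (g : ℤ) * p.2))).card : ℝ) ≤ ((2 * (T / g) + 1 : ℕ) : ℝ) * ((2 * (T / g) + 1 : ℕ) : ℝ) := by
      have h5 := card_image_le (s := Icc (-((T / g : ℕ) : ℤ)) ((T / g : ℕ) : ℤ) ×ˢ
        Icc (-((T / g : ℕ) : ℤ)) ((T / g : ℕ) : ℤ)) (f := fun p : ℤ × ℤ => ((g : ℤ) * p.1, (g : ℤ) * p.2))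
      rw [card_product, hcard] at h5
      exact_mod_cast h5
    have h6 : ((2 * (T / g) + 1 : ℕ) : ℝ) ≤ 3 * ((T : ℝ) / g) := by
      push_cast
      linarith
    calc _ ≤ ((2 * (T / g) + 1 : ℕ) : ℝ) * ((2 * (T / g) + 1 : ℕ) : ℝ) := h4
      _ ≤ (3 * ((T : ℝ) / g)) * (3 * ((T : ℝ) / g)) := by gcongr
      _ = _ := by field_simp; ring
  calc (((Icc (-(T : ℤ)) T ×ˢ Icc (-(T : ℤ)) T).filter
      (fun p => p.2 ≠ 0 ∧ ∃ t : ℤ, (G : ℤ) < |t| ∧ t ∣ p.1 ∧ t ∣ p.2)).card : ℝ)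
      ≤ (((Ioc G T).biUnion (fun g => (Icc (-((T / g : ℕ) : ℤ)) ((T / g : ℕ) : ℤ) ×ˢ
        Icc (-((T / g : ℕ) : ℤ)) ((T / g : ℕ) : ℤ)).image
        (fun p : ℤ × ℤ => ((g : ℤ) * p.1, (g : ℤ) * p.2)))).card : ℝ) := by exact_mod_cast card_le_card hsub
    _ ≤ ∑ g ∈ Ioc G T, (((Icc (-((T / g : ℕ) : ℤ)) ((T / g : ℕ) : ℤ) ×ˢ
      Icc (-((T / g : ℕ) : ℤ)) ((T / g : ℕ) : ℤ)).image
        (fun p : ℤ × ℤ => ((g : ℤ) * p.1, (g : ℤ) * p.2))).card : ℝ) := by exact_mod_cast card_biUnion_le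
    _ ≤ ∑ g ∈ Ioc G T, 9 * (T : ℝ) ^ 2 * ((g : ℝ) ^ 2)⁻¹ := sum_le_sum h1
    _ = 9 * (T : ℝ) ^ 2 * ∑ g ∈ Ioc G T, ((g : ℝ) ^ 2)⁻¹ := by rw [mul_sum]
    _ ≤ 9 * (T : ℝ) ^ 2 * (1 / G) := by
        refine mul_le_mul_of_nonneg_left ?_ (by positivity)
        rcases le_or_gt G T with h | h
        · have := sum_Ioc_inv_sq_le_sub (α := ℝ) (show G ≠ 0 by omega) h
          refine this.trans ?_
          rw [one_div]
          have : (0 : ℝ) ≤ (T : ℝ)⁻¹ := by positivity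
          linarith
        · rw [Ioc_eq_empty (by omega), sum_empty]
          positivity
    _ = _ := by ring

/-- the quotients of a vector of pairs -/
noncomputable def fr {n : ℕ} (v : Fin n → ℤ × ℤ) (j : Fin n) : ℚ := ((v j).1 : ℚ) / ((v j).2 : ℚ)

/-- vectors of pairs with quotients in a finite set -/
theorem count_box {n : ℕ} (E : Set (Fin n → ℚ)) (hE : E.Finite) (T G : ℕ) (hT : 1 ≤ T) (hG : 1 ≤ G) :
    ({v : Fin n → ℤ × ℤ | (∀ j, |(v j).1| ≤ T ∧ |(v j).2| ≤ T ∧ (v j).2 ≠ 0) ∧ fr v ∈ E}.ncard : ℝ) ≤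
      E.ncard * (3 * G) ^ n + n * (9 * (T : ℝ) ^ 2) ^ n / G := by
  classical
  obtain ⟨S₁, hS₁⟩ : ∃ S₁ : Finset (Fin n → ℤ × ℤ), S₁ =
      (hE.toFinset ×ˢ Fintype.piFinset (fun _ : Fin n => Icc (-(G : ℤ)) G)).image
        (fun p : (Fin n → ℚ) × (Fin n → ℤ) => fun j => (p.2 j * (p.1 j).num, p.2 j * ((p.1 j).den : ℤ))) := ⟨_, rfl⟩
  obtain ⟨Pr, hPr⟩ : ∃ Pr : Finset (ℤ × ℤ), Pr = Icc (-(T : ℤ)) T ×ˢ Icc (-(T : ℤ)) T := ⟨_, rfl⟩
  obtain ⟨Bd, hBd⟩ : ∃ Bd : Finset (ℤ × ℤ), Bd = Pr.filter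
      (fun p => p.2 ≠ 0 ∧ ∃ t : ℤ, (G : ℤ) < |t| ∧ t ∣ p.1 ∧ t ∣ p.2) := ⟨_, rfl⟩
  obtain ⟨S₂, hS₂⟩ : ∃ S₂ : Finset (Fin n → ℤ × ℤ), S₂ =
      (univ : Finset (Fin n)).biUnion (fun j => Fintype.piFinset (fun i => if i = j then Bd else Pr)) := ⟨_, rfl⟩
  have hG0 : (0 : ℝ) < G := by exact_mod_cast hG
  have hG1 : (1 : ℝ) ≤ G := by exact_mod_cast hG
  have hT1 : (1 : ℝ) ≤ T := by exact_mod_cast hT
  have hsub : {v : Fin n → ℤ × ℤ | (∀ j, |(v j).1| ≤ T ∧ |(v j).2| ≤ T ∧ (v j).2 ≠ 0) ∧ fr v ∈ E} ⊆ ↑(S₁ ∪ S₂) := by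
    rintro v ⟨hv, hvE⟩
    rw [coe_union, Set.mem_union, mem_coe, mem_coe]
    have hex : ∀ j, ∃ t : ℤ, (v j).1 = t * (fr v j).num ∧ (v j).2 = t * ((fr v j).den : ℤ) := by
      intro j
      exact Rat.exists_eq_mul_div_num_and_eq_mul_div_den (v j).1 (hv j).2.2
    choose t ht1 ht2 using hex
    by_cases hall : ∀ j, |t j| ≤ (G : ℤ)
    · left
      rw [hS₁, mem_image]
      refine ⟨(fr v, t), ?_, ?_⟩
      · rw [mem_product, Set.Finite.mem_toFinset, Fintype.mem_piFinset]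
        exact ⟨hvE, fun j => mem_Icc.2 (abs_le.1 (hall j))⟩
      · funext j
        exact Prod.ext (ht1 j).symm (ht2 j).symm
    · right
      push Not at hall
      obtain ⟨j, hj⟩ := hall
      rw [hS₂, mem_biUnion]
      refine ⟨j, mem_univ _, ?_⟩
      rw [Fintype.mem_piFinset]
      intro i
      have hPi : v i ∈ Pr := by
        rw [hPr, mem_product, mem_Icc, mem_Icc]
        exact ⟨abs_le.1 (hv i).1, abs_le.1 (hv i).2.1⟩
      split_ifs with hij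
      · subst hij
        rw [hBd, mem_filter]
        exact ⟨hPi, (hv i).2.2, t i, hj, ⟨_, ht1 i⟩, ⟨_, ht2 i⟩⟩
      · exact hPi
  have hc1 : (S₁.card : ℝ) ≤ E.ncard * (3 * G) ^ n := by
    have h1 : S₁.card ≤ E.ncard * (2 * G + 1) ^ n := by
      rw [hS₁]
      refine card_image_le.trans ?_
      rw [card_product, Fintype.card_piFinset]
      simp only [Int.card_Icc, prod_const, card_univ, Fintype.card_fin]
      rw [Set.ncard_eq_toFinset_card E hE]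
      apply Nat.mul_le_mul_left
      apply Nat.pow_le_pow_left
      omega
    have h2 : ((E.ncard * (2 * G + 1) ^ n : ℕ) : ℝ) ≤ E.ncard * (3 * G) ^ n := by
      push_cast
      gcongr
      linarith
    exact le_trans (by exact_mod_cast h1) h2
  have hPc : (Pr.card : ℝ) ≤ 9 * (T : ℝ) ^ 2 := by
    have h1 : Pr.card = (2 * T + 1) * (2 * T + 1) := by
      rw [hPr, card_product, Int.card_Icc]
      have : ((T : ℤ) + 1 - -(T : ℤ)).toNat = 2 * T + 1 := by omega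
      rw [this]
    rw [h1]
    push_cast
    nlinarith
  have hBc : (Bd.card : ℝ) ≤ 9 * (T : ℝ) ^ 2 / G := by
    rw [hBd, hPr]
    exact bad_pairs T G hG
  have hc2 : (S₂.card : ℝ) ≤ n * (9 * (T : ℝ) ^ 2) ^ n / G := by
    have h1 : (S₂.card : ℝ) ≤ ∑ j : Fin n, ((Fintype.piFinset (fun i => if i = j then Bd else Pr)).card : ℝ) := by
      rw [hS₂]
      exact_mod_cast card_biUnion_le
    have h2 : ∀ j : Fin n, ((Fintype.piFinset (fun i => if i = j then Bd else Pr)).card : ℝ) ≤ (9 * (T : ℝ) ^ 2) ^ n / G := by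
      intro j
      rw [Fintype.card_piFinset]
      push_cast
      calc ∏ i : Fin n, (((if i = j then Bd else Pr).card : ℕ) : ℝ)
          ≤ ∏ i : Fin n, (9 * (T : ℝ) ^ 2) * (if i = j then 1 / (G : ℝ) else 1) := by
            apply prod_le_prod
            · intro i _
              positivity
            · intro i _
              split_ifs with h
              · calc (Bd.card : ℝ) ≤ 9 * (T : ℝ) ^ 2 / G := hBc
                  _ = _ := by ring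
              · rw [mul_one]
                exact hPc
        _ = (9 * (T : ℝ) ^ 2) ^ n / G := by
            rw [prod_mul_distrib, prod_const, card_univ, Fintype.card_fin, prod_ite_eq' univ j]
            simp only [mem_univ, if_true]
            ring
    calc (S₂.card : ℝ) ≤ ∑ j : Fin n, ((Fintype.piFinset (fun i => if i = j then Bd else Pr)).card : ℝ) := h1
      _ ≤ ∑ _j : Fin n, (9 * (T : ℝ) ^ 2) ^ n / G := sum_le_sum fun j _ => h2 j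
      _ = _ := by
          rw [sum_const, card_univ, Fintype.card_fin, nsmul_eq_mul]
          ring
  have h1 := Set.ncard_le_ncard hsub (finite_toSet _)
  rw [Set.ncard_coe_finset] at h1
  have h2 : ((S₁ ∪ S₂).card : ℝ) ≤ S₁.card + S₂.card := by exact_mod_cast card_union_le _ _
  have h3 : ({v : Fin n → ℤ × ℤ | (∀ j, |(v j).1| ≤ T ∧ |(v j).2| ≤ T ∧ (v j).2 ≠ 0) ∧ fr v ∈ E}.ncard : ℝ) ≤
      ((S₁ ∪ S₂).card : ℝ) := by exact_mod_cast h1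
  linarith

/-- the power saving -/
theorem count_pow {n : ℕ} {β C : ℝ} (hβ : β < 2) (E : Set (Fin n → ℚ)) (hE : E.Finite) (T : ℕ) (hT : 1 ≤ T)
    (hC : 0 ≤ C) (hc : (E.ncard : ℝ) ≤ C * (T : ℝ) ^ (2 * ((n : ℝ) - 1) + β)) :
    ({v : Fin n → ℤ × ℤ | (∀ j, |(v j).1| ≤ T ∧ |(v j).2| ≤ T ∧ (v j).2 ≠ 0) ∧ fr v ∈ E}.ncard : ℝ) ≤
      (3 ^ n * C + 2 * n * 9 ^ n) * (T : ℝ) ^ (2 * (n : ℝ) - (2 - β) / (n + 1)) := by
  have hT1 : (1 : ℝ) ≤ T := by exact_mod_cast hT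
  have hT0 : (0 : ℝ) < T := by linarith
  have hn0 : (0 : ℝ) ≤ n := Nat.cast_nonneg n
  obtain ⟨η, hη⟩ : ∃ η : ℝ, η = (2 - β) / (n + 1) := ⟨_, rfl⟩
  have hη0 : 0 < η := by rw [hη]; apply div_pos <;> linarith
  have hηn : (n + 1) * η = 2 - β := by rw [hη]; field_simp
  have hTη : 1 ≤ (T : ℝ) ^ η := Real.one_le_rpow hT1 hη0.le
  obtain ⟨G, hG⟩ : ∃ G : ℕ, G = ⌊(T : ℝ) ^ η⌋₊ := ⟨_, rfl⟩
  have hG1 : 1 ≤ G := by rw [hG]; exact Nat.le_floor (by exact_mod_cast hTη)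
  have hG1' : (1 : ℝ) ≤ G := by exact_mod_cast hG1
  have hGle : (G : ℝ) ≤ (T : ℝ) ^ η := by rw [hG]; exact Nat.floor_le (by positivity)
  have hGlt : (T : ℝ) ^ η < G + 1 := by rw [hG]; exact Nat.lt_floor_add_one _
  have hGge : (T : ℝ) ^ η ≤ 2 * G := by linarith
  rw [← hη]
  refine (count_box E hE T G hT hG1).trans ?_
  rw [add_mul]
  apply add_le_add
  · calc (E.ncard : ℝ) * (3 * G) ^ n ≤ (C * (T : ℝ) ^ (2 * ((n : ℝ) - 1) + β)) * (3 * (T : ℝ) ^ η) ^ n := by gcongr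
      _ = 3 ^ n * C * ((T : ℝ) ^ (2 * ((n : ℝ) - 1) + β) * ((T : ℝ) ^ η) ^ n) := by rw [mul_pow]; ring
      _ = 3 ^ n * C * (T : ℝ) ^ (2 * (n : ℝ) - η) := by
          rw [← Real.rpow_natCast ((T : ℝ) ^ η) n, ← Real.rpow_mul hT0.le, ← Real.rpow_add hT0]
          congr 2
          linear_combination hηn
  · rw [div_le_iff₀ (by linarith)]
    have h1 : (T : ℝ) ^ (2 * (n : ℝ) - η) * (T : ℝ) ^ η = ((T : ℝ) ^ 2) ^ n := by
      rw [← Real.rpow_add hT0, ← pow_mul, ← Real.rpow_natCast]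
      congr 1
      push_cast
      ring
    calc (n : ℝ) * (9 * (T : ℝ) ^ 2) ^ n = n * 9 ^ n * ((T : ℝ) ^ 2) ^ n := by rw [mul_pow]; ring
      _ = n * 9 ^ n * ((T : ℝ) ^ (2 * (n : ℝ) - η) * (T : ℝ) ^ η) := by rw [h1]
      _ ≤ n * 9 ^ n * ((T : ℝ) ^ (2 * (n : ℝ) - η) * (2 * G)) := by gcongr
      _ = _ := by ring

/-- counting by halves -/
theorem dyadic {V : Type*} (size : V → ℕ) (hfin : ∀ T, {v | size v ≤ T}.Finite) (Bad : V → Prop) {s C : ℝ} (hs : 0 < s)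
    (T₀ : ℕ) (h : ∀ T : ℕ, T₀ ≤ T → ({v | size v ≤ T ∧ T < 2 * size v ∧ Bad v}.ncard : ℝ) ≤ C * (T : ℝ) ^ s) :
    ∃ C' : ℝ, 0 ≤ C' ∧ ∀ T : ℕ, 1 ≤ T → ({v | size v ≤ T ∧ Bad v}.ncard : ℝ) ≤ C' * (T : ℝ) ^ s := by
  obtain ⟨r, hr⟩ : ∃ r : ℝ, r = (1 / 2 : ℝ) ^ s := ⟨_, rfl⟩
  have hr0 : 0 < r := by rw [hr]; positivity
  have hr1 : r < 1 := by rw [hr]; exact Real.rpow_lt_one (by norm_num) (by norm_num) hs
  obtain ⟨T₁, hT₁⟩ : ∃ T₁ : ℕ, T₁ = max T₀ 2 := ⟨_, rfl⟩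
  have hT₁0 : T₀ ≤ T₁ := by rw [hT₁]; exact le_max_left _ _
  have hT₁2 : 2 ≤ T₁ := by rw [hT₁]; exact le_max_right _ _
  obtain ⟨K, hK⟩ : ∃ K : ℝ, K = |C| / (1 - r) + ({v | size v ≤ T₁}.ncard : ℝ) := ⟨_, rfl⟩
  have h1r : 0 < 1 - r := by linarith
  have hC0 : 0 ≤ |C| / (1 - r) := div_nonneg (abs_nonneg _) h1r.le
  have hK0 : 0 ≤ K := by rw [hK]; positivity
  have hKC : |C| ≤ (1 - r) * K := by
    have h2 : |C| = (1 - r) * (|C| / (1 - r)) := by field_simp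
    have h3 : |C| / (1 - r) ≤ K := by rw [hK]; linarith [(Nat.cast_nonneg _ : (0 : ℝ) ≤ ({v | size v ≤ T₁}.ncard : ℝ))]
    rw [h2]
    exact mul_le_mul_of_nonneg_left h3 h1r.le
  refine ⟨K, hK0, fun T hT => ?_⟩
  induction T using Nat.strong_induction_on with
  | _ T ih =>
    have hT1 : (1 : ℝ) ≤ T := by exact_mod_cast hT
    have hTs : 1 ≤ (T : ℝ) ^ s := Real.one_le_rpow hT1 hs.le
    rcases lt_or_ge T T₁ with hlt | hge
    · have h2 : ({v | size v ≤ T ∧ Bad v}.ncard : ℝ) ≤ ({v | size v ≤ T₁}.ncard : ℝ) := by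
        refine Nat.cast_le.2 (Set.ncard_le_ncard ?_ (hfin T₁))
        rintro v ⟨h3, -⟩
        exact h3.trans hlt.le
      calc ({v | size v ≤ T ∧ Bad v}.ncard : ℝ) ≤ ({v | size v ≤ T₁}.ncard : ℝ) := h2
        _ ≤ K := by rw [hK]; linarith
        _ = K * 1 := by ring
        _ ≤ K * (T : ℝ) ^ s := mul_le_mul_of_nonneg_left hTs hK0
    · have hT2 : 2 ≤ T := hT₁2.trans hge
      have h2 := ih (T / 2) (by omega) (by omega)
      have h3 : {v | size v ≤ T ∧ Bad v} ⊆ {v | size v ≤ T / 2 ∧ Bad v} ∪ {v | size v ≤ T ∧ T < 2 * size v ∧ Bad v} := by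
        rintro v ⟨h4, h5⟩
        rcases le_or_gt (size v) (T / 2) with h6 | h6
        · exact Or.inl ⟨h6, h5⟩
        · exact Or.inr ⟨h4, by omega, h5⟩
      have hf : ({v | size v ≤ T / 2 ∧ Bad v} ∪ {v | size v ≤ T ∧ T < 2 * size v ∧ Bad v}).Finite :=
        ((hfin (T / 2)).subset fun v hv => hv.1).union ((hfin T).subset fun v hv => hv.1)
      have h4 : (({v | size v ≤ T ∧ Bad v}.ncard : ℕ) : ℝ) ≤
          ({v | size v ≤ T / 2 ∧ Bad v}.ncard : ℝ) + ({v | size v ≤ T ∧ T < 2 * size v ∧ Bad v}.ncard : ℝ) := by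
        exact_mod_cast (Set.ncard_le_ncard h3 hf).trans (Set.ncard_union_le _ _)
      have h5 : ((T / 2 : ℕ) : ℝ) ^ s ≤ r * (T : ℝ) ^ s := by
        have h6 : ((T / 2 : ℕ) : ℝ) ≤ (1 / 2 : ℝ) * T := by
          have := @Nat.cast_div_le ℝ _ _ _ T 2
          push_cast at this
          linarith
        calc ((T / 2 : ℕ) : ℝ) ^ s ≤ ((1 / 2 : ℝ) * T) ^ s := Real.rpow_le_rpow (Nat.cast_nonneg _) h6 hs.le
          _ = _ := by rw [Real.mul_rpow (by norm_num) (by positivity), hr]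
      calc ({v | size v ≤ T ∧ Bad v}.ncard : ℝ) ≤ K * ((T / 2 : ℕ) : ℝ) ^ s + C * (T : ℝ) ^ s :=
            h4.trans (add_le_add h2 (h T (hT₁0.trans hge)))
        _ ≤ K * (r * (T : ℝ) ^ s) + |C| * (T : ℝ) ^ s := by
            refine add_le_add (mul_le_mul_of_nonneg_left h5 hK0) (mul_le_mul_of_nonneg_right (le_abs_self _) (by positivity))
        _ ≤ K * (r * (T : ℝ) ^ s) + ((1 - r) * K) * (T : ℝ) ^ s := by
            gcongr
        _ = K * (T : ℝ) ^ s := by ring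

/-- the quotients of a family of integers, indexed by pairs -/
noncomputable def frI {n : ℕ} (α : Fin n × Fin 2 → ℤ) (j : Fin n) : ℚ := (α (j, 0) : ℚ) / (α (j, 1) : ℚ)

/-- the largest absolute value -/
def htI {ι : Type} [Fintype ι] (α : ι → ℤ) : ℕ := Finset.univ.sup fun i => (α i).natAbs

lemma le_htI {ι : Type} [Fintype ι] (α : ι → ℤ) (i : ι) : |α i| ≤ (htI α : ℤ) := by
  have h : (α i).natAbs ≤ htI α := Finset.le_sup (f := fun i => (α i).natAbs) (mem_univ i)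
  rw [Int.abs_eq_natAbs]
  exact_mod_cast h

lemma htI_le {ι : Type} [Fintype ι] (α : ι → ℤ) (T : ℕ) : htI α ≤ T ↔ ∀ i, |α i| ≤ (T : ℤ) := by
  constructor
  · intro h i
    exact (le_htI α i).trans (by exact_mod_cast h)
  · intro h
    refine Finset.sup_le fun i _ => ?_
    have := h i
    rw [Int.abs_eq_natAbs] at this
    exact_mod_cast this

lemma fin_htI {ι : Type} [Fintype ι] (T : ℕ) : {α : ι → ℤ | htI α ≤ T}.Finite := by
  classical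
  apply (Fintype.piFinset fun _ : ι => Icc (-(T : ℤ)) (T : ℤ)).finite_toSet.subset
  intro α hα
  rw [mem_coe, Fintype.mem_piFinset]
  intro i
  rw [Finset.mem_Icc]
  exact abs_le.1 ((htI_le α T).1 hα i)

/-- **Families of fractions.** If for all `T ≥ 1` at most `C T^(2(n-1)+β)` vectors of rationals in `[a, b]` with denominators at
most `T` have a relation of heights `T^A`, `T^(-B)`, then the number of the families of integers `|α| ≤ T` whose quotients are in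
`[a, b]` and have a relation of heights `H^A`, `H^(-2 max(B, 0))`, `H` the largest `|α i|`, is at most
`C' T^(2n - (2-β)/(n+1))`. -/
theorem fractions {n : ℕ} (hn : 1 ≤ n) {β : ℝ} (hβ0 : 0 < β) (hβ : β < 2) {a b A B C : ℝ} (hA : 0 ≤ A)
    (Rel : (Fin n → ℚ) → ℝ → ℝ → Prop)
    (mono : ∀ q U V U' V', U ≤ U' → V ≤ V' → Rel q U V → Rel q U' V')
    (h : ∀ T : ℝ, 1 ≤ T → {q : Fin n → ℚ | (∀ j, a ≤ q j ∧ q j ≤ b ∧ ((q j).den : ℝ) ≤ T) ∧ Rel q (T ^ A) (T ^ (-B))}.Finite ∧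
      ({q : Fin n → ℚ | (∀ j, a ≤ q j ∧ q j ≤ b ∧ ((q j).den : ℝ) ≤ T) ∧ Rel q (T ^ A) (T ^ (-B))}.ncard : ℝ) ≤
        C * T ^ (2 * ((n : ℝ) - 1) + β)) :
    ∃ C' : ℝ, 0 ≤ C' ∧ ∀ T : ℕ, 1 ≤ T →
      ({α : Fin n × Fin 2 → ℤ | htI α ≤ T ∧ (∀ j, α (j, 1) ≠ 0) ∧ (∀ j, a ≤ frI α j ∧ frI α j ≤ b) ∧
        Rel (frI α) ((htI α : ℝ) ^ A) ((htI α : ℝ) ^ (-(2 * max B 0)))}.ncard : ℝ) ≤
        C' * (T : ℝ) ^ (2 * (n : ℝ) - (2 - β) / (n + 1)) := by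
  have hn1 : (1 : ℝ) ≤ n := by exact_mod_cast hn
  have hs : 0 < 2 * (n : ℝ) - (2 - β) / (n + 1) := by
    have : (2 - β) / ((n : ℝ) + 1) < 2 := by
      rw [div_lt_iff₀ (by linarith)]
      nlinarith
    linarith
  refine dyadic (htI (ι := Fin n × Fin 2)) (fun T => fin_htI T) (fun α => (∀ j, α (j, 1) ≠ 0) ∧
    (∀ j, a ≤ frI α j ∧ frI α j ≤ b) ∧ Rel (frI α) ((htI α : ℝ) ^ A) ((htI α : ℝ) ^ (-(2 * max B 0))))
    (C := 3 ^ n * |C| + 2 * n * 9 ^ n) hs 4 (fun T hT => ?_)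
  have hT1 : (1 : ℝ) ≤ T := by
    have : 1 ≤ T := by omega
    exact_mod_cast this
  have hT4 : (4 : ℝ) ≤ T := by exact_mod_cast hT
  have hT0 : (0 : ℝ) < T := by linarith
  obtain ⟨hf, hc⟩ := h T hT1
  obtain ⟨E, hE⟩ : ∃ E : Set (Fin n → ℚ), E = {q : Fin n → ℚ | (∀ j, a ≤ q j ∧ q j ≤ b ∧ ((q j).den : ℝ) ≤ T) ∧
      Rel q ((T : ℝ) ^ A) ((T : ℝ) ^ (-B))} := ⟨_, rfl⟩
  rw [← hE] at hf hc
  have hc' : (E.ncard : ℝ) ≤ |C| * (T : ℝ) ^ (2 * ((n : ℝ) - 1) + β) :=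
    hc.trans (mul_le_mul_of_nonneg_right (le_abs_self _) (by positivity))
  refine le_trans ?_ (count_pow hβ E hf T (by omega) (abs_nonneg _) hc')
  have hfin : {v : Fin n → ℤ × ℤ | (∀ j, |(v j).1| ≤ T ∧ |(v j).2| ≤ T ∧ (v j).2 ≠ 0) ∧ fr v ∈ E}.Finite := by
    classical
    apply (Fintype.piFinset fun _ : Fin n => Icc (-(T : ℤ)) (T : ℤ) ×ˢ Icc (-(T : ℤ)) (T : ℤ)).finite_toSet.subset
    rintro v ⟨hv, -⟩
    rw [mem_coe, Fintype.mem_piFinset]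
    intro j
    rw [mem_product, mem_Icc, mem_Icc]
    exact ⟨abs_le.1 (hv j).1, abs_le.1 (hv j).2.1⟩
  refine Nat.cast_le.2 (Set.ncard_le_ncard_of_injOn (fun (α : Fin n × Fin 2 → ℤ) (j : Fin n) => (α (j, 0), α (j, 1))) ?_ ?_ hfin)
  · rintro α ⟨h1, h2, h3, h4, h5⟩
    have h6 := (htI_le α T).1 h1
    have hfr : fr (fun j => (α (j, 0), α (j, 1))) = frI α := by
      funext j
      rfl
    refine ⟨fun j => ⟨h6 _, h6 _, h3 j⟩, ?_⟩
    have hH1 : (htI α : ℝ) ≤ T := by exact_mod_cast h1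
    have hH2 : (T : ℝ) < 2 * htI α := by exact_mod_cast h2
    have hH0 : (0 : ℝ) < htI α := by linarith
    show fr (fun j => (α (j, 0), α (j, 1))) ∈ E
    rw [hfr, hE]
    refine ⟨fun j => ⟨(h4 j).1, (h4 j).2, ?_⟩, mono _ _ _ _ _ (Real.rpow_le_rpow hH0.le hH1 hA) ?_ h5⟩
    · have h7 : ((frI α j).den : ℤ) ∣ α (j, 1) := by
        have h9 := Rat.den_dvd (α (j, 0)) (α (j, 1))
        rwa [Rat.divInt_eq_div] at h9
      have h8 : ((frI α j).den : ℤ) ≤ |α (j, 1)| := Int.le_of_dvd (abs_pos.2 (h3 j)) ((dvd_abs _ _).2 h7)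
      exact_mod_cast h8.trans (h6 _)
    · have h7 : (T : ℝ) ≤ (htI α : ℝ) ^ 2 := by nlinarith
      calc (htI α : ℝ) ^ (-(2 * max B 0)) = ((htI α : ℝ) ^ 2) ^ (-(max B 0)) := by
            rw [← Real.rpow_natCast (htI α : ℝ) 2, ← Real.rpow_mul hH0.le]
            congr 1
            push_cast
            ring
        _ ≤ (T : ℝ) ^ (-(max B 0)) := Real.rpow_le_rpow_of_nonpos hT0 h7 (by linarith [le_max_right B 0])
        _ ≤ (T : ℝ) ^ (-B) := Real.rpow_le_rpow_of_exponent_le hT1 (by linarith [le_max_left B 0])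
  · intro α _ α' _ hαα
    funext ⟨j, l⟩
    have h1 := congrFun hαα j
    simp only [Prod.mk.injEq] at h1
    fin_cases l
    · exact h1.1
    · exact h1.2

end Pool.Agent.U951.TR.Frac
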