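import Mathlib
import Pool.Agent.U951.TR.Frac

set_option autoImplicit false

/-!
# Vectors of fractions: the interface (helper951)
-/

namespace Pool.Agent.U951.TR.Frac

open Finset Classical

/-- the fractions `α_0 / α_1`, `α_2 / α_3`, … -/
noncomputable def quot {n : ℕ} (α : Fin (n * 2) → ℤ) (j : Fin n) : ℚ :=
  (α (finProdFinEquiv (j, 0)) : ℚ) / (α (finProdFinEquiv (j, 1)) : ℚ)

/-- the largest absolute value -/
def height {k : ℕ} (α : Fin k → ℤ) : ℕ := Finset.univ.sup fun i => (α i).natAbs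

/-- the families whose fractions are in `[a, b]` and have a relation of heights `H ^ A`, `H ^ (-B)` -/
def Bad {n : ℕ} (Rel : (Fin n → ℚ) → ℝ → ℝ → Prop) (a b A B : ℝ) : Set (Fin (n * 2) → ℤ) :=
  {α | (∀ j : Fin n, α (finProdFinEquiv (j, 1)) ≠ 0) ∧ (∀ j, a ≤ quot α j ∧ quot α j ≤ b) ∧
    Rel (quot α) ((height α : ℝ) ^ A) ((height α : ℝ) ^ (-B))}

theorem count_int {n : ℕ} (hn : 1 ≤ n) {β : ℝ} (hβ0 : 0 < β) (hβ : β < 2) {a b A B C : ℝ} (hA : 0 ≤ A)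
    (Rel : (Fin n → ℚ) → ℝ → ℝ → Prop)
    (mono : ∀ q U V U' V', U ≤ U' → V ≤ V' → Rel q U V → Rel q U' V')
    (h : ∀ T : ℝ, 1 ≤ T → {q : Fin n → ℚ | (∀ j, a ≤ q j ∧ q j ≤ b ∧ ((q j).den : ℝ) ≤ T) ∧ Rel q (T ^ A) (T ^ (-B))}.Finite ∧
      ({q : Fin n → ℚ | (∀ j, a ≤ q j ∧ q j ≤ b ∧ ((q j).den : ℝ) ≤ T) ∧ Rel q (T ^ A) (T ^ (-B))}.ncard : ℝ) ≤
        C * T ^ (2 * ((n : ℝ) - 1) + β)) :
    ∃ C' : ℝ, 0 ≤ C' ∧ ∀ T : ℕ, 1 ≤ T →
      ({α : Fin (n * 2) → ℤ | (∀ i, |α i| ≤ (T : ℤ)) ∧ α ∈ Bad Rel a b A (2 * max B 0)}.ncard : ℝ) ≤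
        C' * (T : ℝ) ^ (((n * 2 : ℕ) : ℝ) - (2 - β) / (n + 1)) := by
  obtain ⟨C', hC', hcount⟩ := fractions hn hβ0 hβ hA Rel mono h
  refine ⟨C', hC', fun T hT => ?_⟩
  have he : ((n * 2 : ℕ) : ℝ) - (2 - β) / (n + 1) = 2 * (n : ℝ) - (2 - β) / (n + 1) := by push_cast; ring
  rw [he]
  refine le_trans ?_ (hcount T hT)
  refine Nat.cast_le.2 (Set.ncard_le_ncard_of_injOn
    (fun (α : Fin (n * 2) → ℤ) (i : Fin n × Fin 2) => α (finProdFinEquiv i)) ?_ ?_ ((fin_htI T).subset fun α hα => hα.1))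
  · rintro α ⟨h1, h2, h3, h4⟩
    have hH : htI (fun i : Fin n × Fin 2 => α (finProdFinEquiv i)) = height α := by
      unfold htI height
      apply le_antisymm
      · refine Finset.sup_le fun i _ => ?_
        exact Finset.le_sup (f := fun i => (α i).natAbs) (mem_univ _)
      · refine Finset.sup_le fun i _ => ?_
        have h5 := Finset.le_sup (f := fun i : Fin n × Fin 2 => (α (finProdFinEquiv i)).natAbs)
          (mem_univ (finProdFinEquiv.symm i))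
        rw [Equiv.apply_symm_apply] at h5
        exact h5
    have hq : frI (fun i : Fin n × Fin 2 => α (finProdFinEquiv i)) = quot α := by
      funext j
      rfl
    refine ⟨(htI_le _ T).2 fun i => h1 _, h2, ?_, ?_⟩
    · rw [hq]
      exact h3
    · rw [hq, hH]
      exact h4
  · intro α _ α' _ hαα
    funext i
    have := congrFun hαα (finProdFinEquiv.symm i)
    dsimp only at this
    rw [Equiv.apply_symm_apply] at this
    exact this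

theorem count_nat {n : ℕ} (hn : 1 ≤ n) {β : ℝ} (hβ0 : 0 < β) (hβ : β < 2) {a b A B C : ℝ} (hA : 0 ≤ A)
    (Rel : (Fin n → ℚ) → ℝ → ℝ → Prop)
    (mono : ∀ q U V U' V', U ≤ U' → V ≤ V' → Rel q U V → Rel q U' V')
    (h : ∀ T : ℝ, 1 ≤ T → {q : Fin n → ℚ | (∀ j, a ≤ q j ∧ q j ≤ b ∧ ((q j).den : ℝ) ≤ T) ∧ Rel q (T ^ A) (T ^ (-B))}.Finite ∧
      ({q : Fin n → ℚ | (∀ j, a ≤ q j ∧ q j ≤ b ∧ ((q j).den : ℝ) ≤ T) ∧ Rel q (T ^ A) (T ^ (-B))}.ncard : ℝ) ≤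
        C * T ^ (2 * ((n : ℝ) - 1) + β)) :
    ∃ C' : ℝ, 0 ≤ C' ∧ ∀ T : ℕ, 1 ≤ T → ∀ m₀ : ℕ,
      ({w : Fin (n * 2) → ℕ | (∀ i, m₀ ≤ w i ∧ w i ≤ T) ∧ (fun i => (w i : ℤ)) ∈ Bad Rel a b A (2 * max B 0)}.ncard : ℝ) ≤
        C' * (T : ℝ) ^ (((n * 2 : ℕ) : ℝ) - (2 - β) / (n + 1)) := by
  obtain ⟨C', hC', hcount⟩ := count_int hn hβ0 hβ hA Rel mono h
  refine ⟨C', hC', fun T hT m₀ => ?_⟩
  refine le_trans ?_ (hcount T hT)
  have hfin : {α : Fin (n * 2) → ℤ | (∀ i, |α i| ≤ (T : ℤ)) ∧ α ∈ Bad Rel a b A (2 * max B 0)}.Finite := by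
    apply (Fintype.piFinset fun _ : Fin (n * 2) => Icc (-(T : ℤ)) (T : ℤ)).finite_toSet.subset
    rintro α ⟨hα, -⟩
    rw [mem_coe, Fintype.mem_piFinset]
    intro i
    rw [Finset.mem_Icc]
    exact abs_le.1 (hα i)
  refine Nat.cast_le.2 (Set.ncard_le_ncard_of_injOn
    (fun (w : Fin (n * 2) → ℕ) (i : Fin (n * 2)) => (w i : ℤ)) ?_ ?_ hfin)
  · rintro w ⟨h1, h2⟩
    refine ⟨fun i => ?_, h2⟩
    dsimp only
    rw [Nat.abs_cast]
    exact_mod_cast (h1 i).2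
  · intro w _ w' _ hww
    funext i
    have : ((w i : ℕ) : ℤ) = ((w' i : ℕ) : ℤ) := congrFun hww i
    exact_mod_cast this

end Pool.Agent.U951.TR.Frac
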