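import Pool.Agent.S821.PoorLaw

set_option autoImplicit false

/-!
# Poor points near `α v ^ D`: the interface for the tools on values of arithmetic functions (helper951, after helper821)

The proof of `objects` is that of `Pool.Agent.S821.Poor.avoid` (helper821), with windows of arbitrary length and without
the choice of the tool.
-/

namespace Pool.Agent.U951.TR.Gaps

open Finset Filter
open Pool.Agent.Q240.KS (MAINP)
open Pool.Agent.U766.OP (Poor count_poor)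
open Pool.Agent.S821.Poor

/-- the objects which have to be avoided -/
theorem objects {lam0 e0 : ℝ} (hM : MAINP lam0 e0) (hl0 : 0.2 ≤ lam0) (hl1 : lam0 ≤ 0.9) (he0 : 0.01 ≤ e0)
    (he1 : e0 ≤ lam0) :
    ∃ c δ : ℝ, 0 < c ∧ 0 < δ ∧ ∀ α D w : ℝ, 0 < α → 1 ≤ D → 1 - lam0 ≤ w → w ≤ 1 - e0 → D * (1 - w) ≤ 1 →
      ∀ J₀ : ℕ, ∃ (S : Set ℝ) (s κ : ℝ), 0 ≤ s ∧ 0 ≤ κ ∧ s + κ < 1 - D * (1 - w - e0) ∧
        (∀ ε : ℝ, 0 < ε → ∃ C : ℝ, ∀ X : ℝ, 1 ≤ X →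
          {t | t ∈ S ∧ (t / α) ^ D⁻¹ ≤ X}.Finite ∧ ({t | t ∈ S ∧ (t / α) ^ D⁻¹ ≤ X}.ncard : ℝ) ≤ C * X ^ (s + ε)) ∧
        ∀ v : ℕ, (∀ t ∈ S, ¬ |(t / α) ^ D⁻¹ - (v : ℝ)| ≤ (v : ℝ) ^ κ) →
          J₀ ≤ v ∧ Dense c (1 - lam0 - δ) w (α * (v : ℝ) ^ D) ∧ Small (1 - lam0 - δ) w (α * (v : ℝ) ^ D) := by
  obtain ⟨c, η, C, hc, hη, hη1, S, hS2, hSc, hSp⟩ := clusters hM hl0 hl1 he0 (by linarith)
  refine ⟨c / 16, η / 2, by positivity, by positivity, fun α D w hα hD hw1 hw2 hDw J₀ => ?_⟩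
  obtain ⟨x₀, hx₀⟩ := dense_small (c := c) (θ' := 1 - lam0 - η) (θ := 1 - lam0 - η / 2) (ρ := w) hc
    (by linarith) (by linarith) (by linarith) (by linarith) (by linarith)
  obtain ⟨σ, hσ⟩ : ∃ σ : ℝ, σ = e0 - η / 2 := ⟨_, rfl⟩
  have hσ0 : 0 ≤ σ := by rw [hσ]; linarith
  rw [← hσ] at hSc
  obtain ⟨θ, hθ⟩ : ∃ θ : ℝ, θ = 1 - lam0 - η := ⟨_, rfl⟩
  rw [← hθ] at hSp hx₀
  have hθ0 : 0 < θ := by rw [hθ]; linarith
  have hθ1 : θ ≤ 1 := by rw [hθ]; linarith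
  have hρθ : θ ≤ w := by rw [hθ]; linarith
  have hρ1 : w < 1 := by linarith
  have hC : 0 ≤ C := by
    have h1 := (hSc 1 le_rfl).2
    rw [Real.one_rpow, mul_one] at h1
    exact le_trans (Nat.cast_nonneg _) h1
  have hD0 : 0 < D := by linarith
  have hDη : 0 < D * η := mul_pos hD0 hη
  obtain ⟨κ, hκ⟩ : ∃ κ : ℝ, κ = 1 - D * (1 - w) + D * η / 4 := ⟨_, rfl⟩
  have hκ0 : 0 ≤ κ := by rw [hκ]; linarith
  -- large values
  have hev : ∀ᶠ v : ℕ in atTop, x₀ ≤ α * (v : ℝ) ^ D ∧ 12 * (α * (v : ℝ) ^ D) ^ w + 1 ≤ (α * (v : ℝ) ^ D) ^ (1 : ℝ) ∧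
      12 * α ^ (-(1 - w)) ≤ (v : ℝ) ^ (D * η / 4) ∧ 1 ≤ v := by
    have t0 : Tendsto (fun v : ℕ => (v : ℝ)) atTop atTop := tendsto_natCast_atTop_atTop
    have t1 : Tendsto (fun v : ℕ => α * (v : ℝ) ^ D) atTop atTop :=
      Tendsto.const_mul_atTop hα ((tendsto_rpow_atTop hD0).comp t0)
    have t2 : Tendsto (fun v : ℕ => (v : ℝ) ^ (D * η / 4)) atTop atTop := (tendsto_rpow_atTop (by positivity)).comp t0
    filter_upwards [t1.eventually_ge_atTop x₀, t1.eventually (ev 12 1 hρ1 one_pos),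
      t2.eventually_ge_atTop (12 * α ^ (-(1 - w))), eventually_ge_atTop 1] with v h1 h2 h3 h4
    exact ⟨h1, h2, h3, h4⟩
  obtain ⟨J1, hJ1⟩ := eventually_atTop.1 hev
  obtain ⟨J, hJdef⟩ : ∃ J : ℕ, J = max J1 J₀ := ⟨_, rfl⟩
  have hJ : ∀ v : ℕ, J ≤ v → _ := fun v hv => hJ1 v ((le_max_left J1 J₀).trans (hJdef ▸ hv))
  -- the objects
  obtain ⟨S', hS'⟩ : ∃ S' : Set ℝ, S' = S ∪ ((fun j : ℕ => α * (j : ℝ) ^ D) '' (Set.Iic J)) := ⟨_, rfl⟩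
  have hfinJ : ((fun j : ℕ => α * (j : ℝ) ^ D) '' (Set.Iic J)).Finite := (Set.finite_Iic J).image _
  have hS'0 : ∀ t ∈ S', 0 ≤ t := by
    intro t ht
    rw [hS'] at ht
    rcases ht with ht | ⟨j, -, rfl⟩
    · linarith [hS2 t ht]
    · positivity
  have hcount : ∀ ε : ℝ, 0 < ε → ∃ C' : ℝ, ∀ X : ℝ, 1 ≤ X →
      {t | t ∈ S' ∧ (t / α) ^ D⁻¹ ≤ X}.Finite ∧ ({t | t ∈ S' ∧ (t / α) ^ D⁻¹ ≤ X}.ncard : ℝ) ≤ C' * X ^ (D * σ + ε) := by
    intro ε hε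
    refine ⟨C * (1 + α) ^ σ + ((fun j : ℕ => α * (j : ℝ) ^ D) '' (Set.Iic J)).ncard, fun X hX => ?_⟩
    have hX0 : 0 < X := by linarith
    have hXD : 1 ≤ X ^ D := Real.one_le_rpow hX hD0.le
    have hY : 1 ≤ (1 + α) * X ^ D := by nlinarith
    have hsub : {t | t ∈ S' ∧ (t / α) ^ D⁻¹ ≤ X} ⊆ {t | t ∈ S ∧ t ≤ (1 + α) * X ^ D} ∪
        ((fun j : ℕ => α * (j : ℝ) ^ D) '' (Set.Iic J)) := by
      rintro t ⟨ht, htX⟩
      have ht0 := hS'0 t ht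
      rw [hS'] at ht
      rcases ht with ht | ht
      · left
        refine ⟨ht, ?_⟩
        have h1 : t / α ≤ X ^ D := by
          calc t / α = ((t / α) ^ D⁻¹) ^ D := by
                rw [← Real.rpow_mul (by positivity), inv_mul_cancel₀ hD0.ne', Real.rpow_one]
            _ ≤ X ^ D := Real.rpow_le_rpow (by positivity) htX hD0.le
        rw [div_le_iff₀ hα] at h1
        nlinarith
      · exact Or.inr ht
    obtain ⟨g1, g2⟩ := hSc _ hY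
    have hfin := g1.union hfinJ
    refine ⟨hfin.subset hsub, ?_⟩
    have h1 := (Set.ncard_le_ncard hsub hfin).trans (Set.ncard_union_le _ _)
    have h2 : ({t | t ∈ S' ∧ (t / α) ^ D⁻¹ ≤ X}.ncard : ℝ) ≤ ({t | t ∈ S ∧ t ≤ (1 + α) * X ^ D}.ncard : ℝ) +
        (((fun j : ℕ => α * (j : ℝ) ^ D) '' (Set.Iic J)).ncard : ℝ) := by exact_mod_cast h1
    have h3 : ((1 + α) * X ^ D) ^ σ ≤ (1 + α) ^ σ * X ^ (D * σ + ε) := by
      rw [Real.mul_rpow (by linarith) (by linarith), ← Real.rpow_mul hX0.le]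
      refine mul_le_mul_of_nonneg_left ?_ (by positivity)
      exact Real.rpow_le_rpow_of_exponent_le hX (by linarith)
    have h4 : 1 ≤ X ^ (D * σ + ε) := Real.one_le_rpow hX (by positivity)
    calc _ ≤ _ := h2
      _ ≤ C * ((1 + α) ^ σ * X ^ (D * σ + ε)) +
          (((fun j : ℕ => α * (j : ℝ) ^ D) '' (Set.Iic J)).ncard : ℝ) * X ^ (D * σ + ε) := by
          refine add_le_add (g2.trans (mul_le_mul_of_nonneg_left h3 hC)) ?_
          exact le_mul_of_one_le_right (Nat.cast_nonneg _) h4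
      _ = _ := by ring
  refine ⟨S', D * σ, κ, by positivity, hκ0, ?_, hcount, fun v hv => ?_⟩
  · rw [hκ, hσ]
    nlinarith [mul_pos hD0 hη]
  have hvJ : J < v := by
    by_contra hcon
    push Not at hcon
    refine hv (α * (v : ℝ) ^ D) (by rw [hS']; exact Or.inr ⟨v, hcon, rfl⟩) ?_
    have h1 : (α * (v : ℝ) ^ D / α) ^ D⁻¹ = (v : ℝ) := by
      rw [mul_div_cancel_left₀ _ hα.ne', ← Real.rpow_mul (Nat.cast_nonneg _), mul_inv_cancel₀ hD0.ne', Real.rpow_one]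
    rw [h1, sub_self, abs_zero]
    exact Real.rpow_nonneg (Nat.cast_nonneg _) _
  obtain ⟨q1, q2, q3, q4⟩ := hJ v hvJ.le
  refine ⟨(le_max_right J1 J₀).trans (hJdef ▸ hvJ.le), ?_⟩
  obtain ⟨x, hx⟩ : ∃ x : ℝ, x = α * (v : ℝ) ^ D := ⟨_, rfl⟩
  rw [← hx] at q1 q2 ⊢
  rw [Real.rpow_one] at q2
  have hv1 : (1 : ℝ) ≤ v := by exact_mod_cast q4
  have hv0 : (0 : ℝ) < v := by linarith
  have hvD : 0 < (v : ℝ) ^ D := Real.rpow_pos_of_pos hv0 _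
  have hx0 : 0 < x := by rw [hx]; positivity
  have hxρ : 0 < x ^ w := Real.rpow_pos_of_pos hx0 _
  refine hx₀ x q1 (fun y hy hyx hp => ?_)
  obtain ⟨s, hs, hys⟩ := hSp y hy hp
  refine hv s (by rw [hS']; exact Or.inl hs) ?_
  have hx1 : 1 ≤ x := by linarith
  have hy2 : y ≤ 2 * x := by
    have := (abs_le.1 hyx).2
    linarith
  have h1 : y ^ θ ≤ 2 * x ^ w := by
    calc y ^ θ ≤ (2 * x) ^ θ := Real.rpow_le_rpow (by linarith) hy2 hθ0.le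
      _ = 2 ^ θ * x ^ θ := Real.mul_rpow (by norm_num) hx0.le
      _ ≤ 2 ^ (1 : ℝ) * x ^ w := mul_le_mul (Real.rpow_le_rpow_of_exponent_le (by norm_num) hθ1)
          (Real.rpow_le_rpow_of_exponent_le hx1 hρθ) (Real.rpow_nonneg hx0.le _) (by positivity)
      _ = 2 * x ^ w := by rw [Real.rpow_one]
  have h2 : |s - x| ≤ 6 * x ^ w := by
    calc |s - x| = |(y - x) - (y - s)| := by congr 1; ring
      _ ≤ |y - x| + |y - s| := abs_sub _ _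
      _ ≤ _ := by linarith
  have hw : (v : ℝ) ^ D = x / α := by rw [hx]; field_simp
  have h3 : |s / α - x / α| ≤ (x / α) / 2 := by
    rw [← sub_div, abs_div, abs_of_pos hα, div_div, mul_comm α 2, ← div_div, div_le_div_iff_of_pos_right hα]
    linarith
  have h4 := root (inv_pos.2 hD0) (inv_le_one_of_one_le₀ hD) (by positivity : 0 < x / α) h3
  have h5 : (x / α) ^ D⁻¹ = (v : ℝ) := by
    rw [← hw, ← Real.rpow_mul hv0.le, mul_inv_cancel₀ hD0.ne', Real.rpow_one]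
  rw [h5] at h4
  refine h4.trans ?_
  have h6 : |s / α - x / α| / (x / α) ≤ 6 * x ^ (-(1 - w)) := by
    rw [← sub_div, abs_div, abs_of_pos hα, div_div_div_cancel_right₀ hα.ne', div_le_iff₀ hx0]
    refine h2.trans (le_of_eq ?_)
    rw [mul_assoc, ← Real.rpow_add_one hx0.ne']
    congr 2
    ring
  have h7 : x ^ (-(1 - w)) = α ^ (-(1 - w)) * (v : ℝ) ^ (-(D * (1 - w))) := by
    rw [hx, Real.mul_rpow hα.le hvD.le, ← Real.rpow_mul hv0.le]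
    congr 2
    ring
  calc 2 * (v : ℝ) * (|s / α - x / α| / (x / α)) ≤ 2 * (v : ℝ) * (6 * x ^ (-(1 - w))) :=
        mul_le_mul_of_nonneg_left h6 (by positivity)
    _ = 12 * α ^ (-(1 - w)) * ((v : ℝ) ^ (-(D * (1 - w))) * (v : ℝ) ^ (1 : ℝ)) := by rw [h7, Real.rpow_one]; ring
    _ ≤ (v : ℝ) ^ (D * η / 4) * ((v : ℝ) ^ (-(D * (1 - w))) * (v : ℝ) ^ (1 : ℝ)) :=
        mul_le_mul_of_nonneg_right q3 (by positivity)
    _ = (v : ℝ) ^ κ := by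
        rw [← Real.rpow_add hv0, ← Real.rpow_add hv0, hκ]
        congr 1
        ring

end Pool.Agent.U951.TR.Gaps
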