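import Pool.Agent.U951.TR.Gaps
import Pool.Agent.U365.POW.E
import Pool.Agent.U405.RS.F2
import Pool.Agent.U536.CF.F

set_option autoImplicit false

/-!
# Primes in all intervals near `α v ^ D`: the tools (helper951)
-/

namespace Pool.Agent.U951.TR.Gaps

open Finset Filter
open Pool.Agent.Q240.KS (MAINP)
open Pool.Agent.S821.Poor
open Pool.Agent.N733.TG (Expanding expanding_pow)
open Pool.Agent.U365.POW (Values Dens values_set values_mono dens_mono)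
open Pool.Agent.U405.RS (PM Sparse sparse_set')

/-- all intervals of length `a ^ θ` in the window of length `x ^ w` around `x = α v ^ D` contain many primes, and the
gaps between the primes there are at most `p ^ θ` -/
def W (c θ w α D : ℝ) (v : ℕ) : Prop := Dense c θ w (α * (v : ℝ) ^ D) ∧ Small θ w (α * (v : ℝ) ^ D)

/-- the tools -/
theorem tools {lam0 e0 : ℝ} (hM : MAINP lam0 e0) (hl0 : 0.2 ≤ lam0) (hl1 : lam0 ≤ 0.9) (he0 : 0.01 ≤ e0)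
    (he1 : e0 ≤ lam0) :
    ∃ c δ : ℝ, 0 < c ∧ 0 < δ ∧ ∀ α D w : ℝ, 0 < α → 1 ≤ D → 1 - lam0 ≤ w → w ≤ 1 - e0 → D * (1 - w) ≤ 1 →
      ∀ (P : ℕ → Prop) (J₀ : ℕ), (∀ v : ℕ, J₀ ≤ v → W c (1 - lam0 - δ) w α D v → P v) →
      ∀ e : ℝ, e = 1 - D * (1 - w - e0) →
      (Values e P ∧ Dens (1 - e) P) ∧
      (∀ f : ℕ → ℕ, PM f → ∀ U : ℕ, Sparse e f P U) ∧
      ∀ f : ℕ → ℕ, Pool.Agent.N733.TG.LM f → ∀ ρ b c' : ℝ, e ≤ ρ → ρ ≤ 1 → b < 1 → 0 ≤ c' → c' < 2 * b - 1 →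
        ∃ N₀ : ℕ, ∀ N : ℕ, N₀ ≤ N →
          ({m : ℕ | 1 ≤ m ∧ m ≤ N ∧ ∃ v : ℕ, Pool.Agent.U536.CF.Common f b ρ N m v ∧ ¬ P v}.ncard : ℝ) ≤
            N * Real.exp (-(Real.log N ^ c')) := by
  obtain ⟨c, δ, hc, hδ, H⟩ := objects hM hl0 hl1 he0 he1
  refine ⟨c, δ, hc, hδ, fun α D w hα hD hw1 hw2 hDw P J₀ hP e he => ?_⟩
  obtain ⟨S, s, κ, hs, hκ, hsκ, hcount, hS⟩ := H α D w hα hD hw1 hw2 hDw J₀
  rw [← he] at hsκ
  have hD0 : 0 < D := by linarith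
  have he1' : e ≤ 1 := by
    rw [he]
    have : 0 ≤ D * (1 - w - e0) := mul_nonneg hD0.le (by linarith)
    linarith
  have hG : Expanding (fun v : ℕ => 1 * (v : ℝ) ^ (1 : ℝ)) 1 := expanding_pow one_pos le_rfl
  have hgood : ∀ v : ℕ, (∀ t ∈ S, ¬ |(t / α) ^ D⁻¹ - 1 * (v : ℝ) ^ (1 : ℝ)| ≤ (v : ℝ) ^ κ) → P v := by
    intro v hv
    obtain ⟨h1, h2⟩ := hS v fun t ht => by
      have h := hv t ht
      rwa [Real.rpow_one, one_mul] at h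
    exact hP v h1 h2
  refine ⟨?_, fun f hf U => ?_, fun f hf ρ b c' hρ hρ1 hb hc0 hcb => ?_⟩
  · obtain ⟨k1, k2⟩ := values_set S (fun t : ℝ => (t / α) ^ D⁻¹) hG (s := s) (κ := κ) hs hκ (by linarith) hcount
    have hm : ∀ g : ℕ, (∀ t : ℝ, |(t / α) ^ D⁻¹ - 1 * (g : ℝ) ^ (1 : ℝ)| ≤ (g : ℝ) ^ κ → t ∉ S) →
        P g := fun g hg => hgood g fun t ht h => hg t h ht
    refine ⟨?_, dens_mono k2 (by linarith) hm⟩
    have h3 := k1 (e - s - κ) (by linarith)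
    have h4 : 1 * s + κ + (e - s - κ) = e := by ring
    rw [h4] at h3
    exact values_mono h3 hm
  · exact (sparse_set' S (fun t : ℝ => (t / α) ^ D⁻¹) hf hG hs hκ rfl hcount _ U hgood).mono (by linarith)
  · obtain ⟨N₀, hN₀⟩ := Pool.Agent.U536.CF.common_windows S (fun t : ℝ => (t / α) ^ D⁻¹) hf hG (s := s) (κ := κ)
      (ρ := ρ) (b := b) (c := c') hs hκ (by linarith) hρ1 hb hc0 hcb hcount
    refine ⟨N₀, fun N hN => le_trans (Nat.cast_le.2 (Set.ncard_le_ncard ?_ ?_)) (hN₀ N hN)⟩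
    · rintro m ⟨a1, a2, v, a3, a4⟩
      refine ⟨a1, a2, v, a3, ?_⟩
      by_contra hcon
      push Not at hcon
      exact a4 (hgood v fun t ht h => absurd h (not_le.2 (hcon t ht)))
    · exact (Set.finite_Icc 1 N).subset fun m hm => ⟨hm.1, hm.2.1⟩

end Pool.Agent.U951.TR.Gaps
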