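import Pool.Agent.S821.PowIdx
import Pool.Agent.Q278.KT.Fin
import Pool.Agent.U365.POW.E
import Pool.Agent.U405.RS.F2
import Pool.Agent.U536.CF.F

set_option autoImplicit false

/-!
# Properties of all indices near `G v`: the tools for the intervals between consecutive squares (helper951, after helper821)
-/

namespace Pool.Agent.U951.TR.Idx

open Finset Filter
open Pool.Agent.N733.TG (Expanding)
open Pool.Agent.U365.POW (Values Dens values_set values_mono dens_mono)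
open Pool.Agent.U405.RS (PM Sparse sparse_set')
open Pool.Agent.S821.PowIdx (RichPow)

/-- all integers `k ≥ 1` with `|k - G v| ≤ v ^ κ` have the property `P` -/
def Near (P : ℕ → Prop) (G : ℕ → ℝ) (κ : ℝ) (v : ℕ) : Prop := ∀ k : ℕ, 1 ≤ k → |(k : ℝ) - G v| ≤ (v : ℝ) ^ κ → P k

theorem tools : ∃ c δ : ℝ, 0 < c ∧ 0 < δ ∧ δ ≤ 0.0025 ∧ ∀ (m : ℕ) (P : ℕ → Prop), 1 ≤ m →
    (∃ k1 : ℕ, ∀ k : ℕ, k1 ≤ k → RichPow c (1 - δ) 2 3 (m * k) → P k) →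
    ∀ (G : ℕ → ℝ) (d : ℝ), Expanding G d → ∀ κ e : ℝ, 0 ≤ κ → 0.612 * d + κ ≤ e →
      (e ≤ 1 → Values e (Near P G κ) ∧ Dens (1 - e) (Near P G κ)) ∧
      (∀ f : ℕ → ℕ, PM f → ∀ U : ℕ, Sparse e f (Near P G κ) U) ∧
      ∀ f : ℕ → ℕ, Pool.Agent.N733.TG.LM f → ∀ ρ b c' : ℝ, e ≤ ρ → ρ ≤ 1 → b < 1 → 0 ≤ c' → c' < 2 * b - 1 →
        ∃ N₀ : ℕ, ∀ N : ℕ, N₀ ≤ N →
          ({n : ℕ | 1 ≤ n ∧ n ≤ N ∧ ∃ v : ℕ, Pool.Agent.U536.CF.Common f b ρ N n v ∧ ¬ Near P G κ v}.ncard : ℝ) ≤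
            N * Real.exp (-(Real.log N ^ c')) := by
  obtain ⟨c, δ, hc, hδ, hδ1, h⟩ := Pool.Agent.S821.PowIdx.bad_powers Pool.Agent.Q278.KT.mainp_half (by norm_num)
    (by norm_num) (by norm_num) (by norm_num)
  obtain ⟨C, hC, hB⟩ := h 2 3 (by norm_num) (by norm_num) (by norm_num)
  have e0 : (2 : ℝ) * (1 - 1 / 2) - δ = 1 - δ := by ring
  rw [e0] at hB
  refine ⟨c / 2, δ, by positivity, hδ, hδ1, fun m P hm hP G d hG κ e hκ he => ?_⟩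
  obtain ⟨k1, hk1⟩ := hP
  have hd := hG.one_le
  have hm1 : (1 : ℝ) ≤ m := by exact_mod_cast hm
  obtain ⟨S, hS⟩ : ∃ S : Set ℕ, S = {k : ℕ | 1 ≤ k ∧ ¬ P k} := ⟨_, rfl⟩
  have hcount : ∀ ε : ℝ, 0 < ε → ∃ C' : ℝ, ∀ X : ℝ, 1 ≤ X →
      {t : ℕ | t ∈ S ∧ (t : ℝ) ≤ X}.Finite ∧ ({t : ℕ | t ∈ S ∧ (t : ℝ) ≤ X}.ncard : ℝ) ≤
        C' * X ^ (2 * 0.306 - δ + ε) := by
    intro ε hε
    refine ⟨C * m + k1, fun X hX => ?_⟩
    have hmX : 1 ≤ m * X := by nlinarith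
    obtain ⟨q1, q2⟩ := hB (m * X) hmX
    obtain ⟨T, hT⟩ : ∃ T, T = {n : ℕ | n ∈ {n : ℕ | ¬ RichPow (c / 2) (1 - δ) 2 3 n} ∧ (n : ℝ) ≤ m * X} := ⟨_, rfl⟩
    rw [← hT] at q1 q2
    have hfin1 : {n : ℕ | n < k1}.Finite := Set.finite_Iio k1
    have hfin2 : ((fun n : ℕ => n / m) '' T).Finite := q1.image _
    have hs : {b : ℕ | b ∈ S ∧ (b : ℝ) ≤ X} ⊆ (fun n : ℕ => n / m) '' T ∪ {n : ℕ | n < k1} := by
      rintro b ⟨hb1, hb2⟩
      rw [hS] at hb1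
      by_cases hlt : b < k1
      · exact Or.inr hlt
      · left
        refine ⟨m * b, ?_, Nat.mul_div_cancel_left b hm⟩
        rw [hT]
        refine ⟨fun hR => hb1.2 (hk1 b (not_lt.1 hlt) hR), ?_⟩
        push_cast
        exact mul_le_mul_of_nonneg_left hb2 (by linarith)
    refine ⟨(hfin2.union hfin1).subset hs, ?_⟩
    have h4 := ((Set.ncard_le_ncard hs (hfin2.union hfin1)).trans (Set.ncard_union_le _ _)).trans
      (Nat.add_le_add_right (Set.ncard_image_le q1) _)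
    have h5 : ({n : ℕ | n < k1}.ncard : ℝ) = k1 := by
      have : {n : ℕ | n < k1} = ((Finset.range k1 : Finset ℕ) : Set ℕ) := by
        ext n
        simp
      rw [this, Set.ncard_coe_finset, card_range]
    have h6 : (1 : ℝ) ≤ X ^ (2 * 0.306 - δ) := Real.one_le_rpow hX (by linarith)
    have h7 : (m * X) ^ (2 * 0.306 - δ) ≤ m * X ^ (2 * 0.306 - δ) := by
      rw [Real.mul_rpow (by linarith) (by linarith)]
      refine mul_le_mul_of_nonneg_right ?_ (by positivity)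
      calc (m : ℝ) ^ (2 * 0.306 - δ) ≤ (m : ℝ) ^ (1 : ℝ) := Real.rpow_le_rpow_of_exponent_le hm1 (by linarith)
        _ = m := Real.rpow_one _
    have h8 : X ^ (2 * 0.306 - δ) ≤ X ^ (2 * 0.306 - δ + ε) := Real.rpow_le_rpow_of_exponent_le hX (by linarith)
    calc ({b : ℕ | b ∈ S ∧ (b : ℝ) ≤ X}.ncard : ℝ) ≤ (T.ncard : ℝ) + ({n : ℕ | n < k1}.ncard : ℝ) := by exact_mod_cast h4
      _ ≤ C * (m * X ^ (2 * 0.306 - δ)) + k1 * X ^ (2 * 0.306 - δ) := by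
          rw [h5]
          exact add_le_add (q2.trans (mul_le_mul_of_nonneg_left h7 hC)) (le_mul_of_one_le_right (Nat.cast_nonneg _) h6)
      _ = (C * m + k1) * X ^ (2 * 0.306 - δ) := by ring
      _ ≤ _ := mul_le_mul_of_nonneg_left h8 (by positivity)
  have hs0 : (0 : ℝ) ≤ 2 * 0.306 - δ := by linarith
  have hlt : d * (2 * 0.306 - δ) + κ < e := by nlinarith
  have hgood : ∀ v : ℕ, (∀ t ∈ S, ¬ |(t : ℝ) - G v| ≤ (v : ℝ) ^ κ) → Near P G κ v := by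
    intro v hv k hk hw
    by_contra hcon
    exact hv k (by rw [hS]; exact ⟨hk, hcon⟩) hw
  refine ⟨fun he1 => ?_, fun f hf U => ?_, fun f hf ρ b c' hρ hρ1 hb hc0 hcb => ?_⟩
  · obtain ⟨k1, k2⟩ := values_set S (fun t : ℕ => (t : ℝ)) hG hs0 hκ (by linarith) hcount
    have hm : ∀ g : ℕ, (∀ t : ℕ, |(t : ℝ) - G g| ≤ (g : ℝ) ^ κ → t ∉ S) → Near P G κ g :=
      fun g hg => hgood g fun t ht h => hg t h ht
    refine ⟨?_, dens_mono k2 (by linarith) hm⟩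
    have h3 := k1 (e - (d * (2 * 0.306 - δ) + κ)) (by linarith)
    rw [add_sub_cancel] at h3
    exact values_mono h3 hm
  · exact (sparse_set' S (fun t : ℕ => (t : ℝ)) hf hG hs0 hκ rfl hcount _ U hgood).mono hlt.le
  · obtain ⟨N₀, hN₀⟩ := Pool.Agent.U536.CF.common_windows S (fun t : ℕ => (t : ℝ)) hf hG
      (ρ := ρ) (b := b) (c := c') hs0 hκ (by linarith) hρ1 hb hc0 hcb hcount
    refine ⟨N₀, fun N hN => le_trans (Nat.cast_le.2 (Set.ncard_le_ncard ?_ ?_)) (hN₀ N hN)⟩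
    · rintro n ⟨a1, a2, v, a3, a4⟩
      refine ⟨a1, a2, v, a3, ?_⟩
      by_contra hcon
      push Not at hcon
      exact a4 (hgood v fun t ht h => absurd h (not_le.2 (hcon t ht)))
    · exact (Set.finite_Icc 1 N).subset fun n hn => ⟨hn.1, hn.2.1⟩

end Pool.Agent.U951.TR.Idx
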