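import Mathlib

set_option autoImplicit false

/-!
# Matrices of integers with the absolute values given by a tuple of natural numbers (helper951)
-/

namespace Pool.Agent.U951.TR.Mat

open Finset

/-- `m` is an `l × N` matrix of integers with the absolute values `w`. -/
def Abs {l N : ℕ} (w : Fin (l * N) → ℕ) (m : Fin l → Fin N → ℤ) : Prop :=
  ∀ i j, (m i j).natAbs = w (finProdFinEquiv (i, j))

open Classical in
/-- The exceptional tuples, if there are at most `C |T| ^ ((l - 1) N + c₁)` exceptional matrices with entries in `T`. -/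
theorem count {l N c₁ c C : ℕ} (hl : 1 ≤ l) (hc : c₁ ≤ c) {G : (Fin l → Fin N → ℤ) → Prop}
    (h : ∀ T : Finset ℤ, T.Nonempty →
      ((Fintype.piFinset fun _ : Fin l => Fintype.piFinset fun _ : Fin N => T).filter fun m => ¬ G m).card ≤
        C * T.card ^ ((l - 1) * N + c₁)) (X : ℕ) (hX : 1 ≤ X) :
    ({w : Fin (l * N) → ℕ | (∀ i, 2 ≤ w i ∧ w i ≤ X) ∧ ¬ ∀ m, Abs w m → G m}.ncard : ℝ) ≤
      (C * 3 ^ ((l - 1) * N + c) : ℕ) * (X : ℝ) ^ (((l * N : ℕ) : ℝ) - ((N : ℝ) - c)) := by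
  have h1 := h (Icc (-(X : ℤ)) X) ⟨0, by simp⟩
  have h2 : (Icc (-(X : ℤ)) X).card = 2 * X + 1 := by
    rw [Int.card_Icc]
    omega
  rw [h2] at h1
  obtain ⟨S, hS⟩ : ∃ S : Finset (Fin l → Fin N → ℤ), S = (Fintype.piFinset fun _ : Fin l => Fintype.piFinset
    fun _ : Fin N => Icc (-(X : ℤ)) X).filter fun m => ¬ G m := ⟨_, rfl⟩
  rw [← hS] at h1
  have h3 : {w : Fin (l * N) → ℕ | (∀ i, 2 ≤ w i ∧ w i ≤ X) ∧ ¬ ∀ m, Abs w m → G m} ⊆
      ((S.image (fun m (i : Fin (l * N)) => (m (finProdFinEquiv.symm i).1 (finProdFinEquiv.symm i).2).natAbs) :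
        Finset (Fin (l * N) → ℕ)) : Set (Fin (l * N) → ℕ)) := by
    rintro w ⟨hw, hG⟩
    push Not at hG
    obtain ⟨m, hm, hmG⟩ := hG
    rw [coe_image, Set.mem_image]
    refine ⟨m, ?_, ?_⟩
    · rw [mem_coe, hS, mem_filter, Fintype.mem_piFinset]
      refine ⟨fun i => ?_, hmG⟩
      rw [Fintype.mem_piFinset]
      intro j
      have h4 := hm i j
      have h5 := (hw (finProdFinEquiv (i, j))).2
      rw [mem_Icc]
      constructor <;> omega
    · funext i
      have h4 := hm (finProdFinEquiv.symm i).1 (finProdFinEquiv.symm i).2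
      rw [h4]
      congr 1
      exact finProdFinEquiv.apply_symm_apply i
  have h4 : {w : Fin (l * N) → ℕ | (∀ i, 2 ≤ w i ∧ w i ≤ X) ∧ ¬ ∀ m, Abs w m → G m}.ncard ≤
      C * (2 * X + 1) ^ ((l - 1) * N + c₁) := by
    refine (Set.ncard_le_ncard h3 (finite_toSet _)).trans ?_
    rw [Set.ncard_coe_finset]
    exact card_image_le.trans h1
  have h5 : C * (2 * X + 1) ^ ((l - 1) * N + c₁) ≤ C * 3 ^ ((l - 1) * N + c) * X ^ ((l - 1) * N + c) := by
    rw [mul_assoc, ← mul_pow]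
    apply Nat.mul_le_mul_left
    calc (2 * X + 1) ^ ((l - 1) * N + c₁) ≤ (3 * X) ^ ((l - 1) * N + c₁) := Nat.pow_le_pow_left (by omega) _
      _ ≤ (3 * X) ^ ((l - 1) * N + c) := Nat.pow_le_pow_right (by omega) (by omega)
  have h6 : (X : ℝ) ^ (((l * N : ℕ) : ℝ) - ((N : ℝ) - c)) = (X : ℝ) ^ ((l - 1) * N + c) := by
    rw [← Real.rpow_natCast]
    congr 1
    obtain ⟨l', rfl⟩ : ∃ l', l = l' + 1 := ⟨l - 1, by omega⟩
    rw [Nat.add_sub_cancel]
    push_cast
    ring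
  rw [h6]
  exact_mod_cast h4.trans h5

end Pool.Agent.U951.TR.Mat
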