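import Pool.Agent.U449.BV.TYP
import Pool.Agent.U405.RS.G5

set_option autoImplicit false

/-!
# Tuples of monomials whose degree and exponents are given by a tuple of natural numbers (helper951)

The power saving for the number of the exceptional tuples of monomials is `Pool.Agent.U449.BV.saving_typI` of helper449.
-/

namespace Pool.Agent.U951.TR.Mono

open Finset
open Pool.Agent.R869.Wd
open Pool.Agent.U449.BV (PowerSaving saving_typI)
open Pool.Agent.U405.RS

variable {n s : ℕ}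

/-- ALL tuples `a` of exponent vectors of degree `d = w (e none)`, the `i`-th one of a monomial in the variables from `I i`,
such that the exponents `a i j` of all the variables `j ∈ I i` other than the pivot `piv i` are the other coordinates of
`w` (the coordinates are numbered by `e`) have the property `P`. -/
def At {k : ℕ} (I : Fin s → Finset (Fin (n + 1))) (piv : Fin s → Fin (n + 1)) (e : Option (Free I piv) ≃ Fin k)
    (P : ℕ → (Fin s → (Fin (n + 1) →₀ ℕ)) → Prop) (w : Fin k → ℕ) : Prop :=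
  ∀ a : Fin s → (Fin (n + 1) →₀ ℕ), a ∈ TuplesIn I (w (e none)) → (∀ c : Free I piv, a c.1.1 c.1.2 = w (e (some c))) →
    P (w (e none)) a

/-- the exceptional tuples of coordinates -/
theorem count {I : Fin s → Finset (Fin (n + 1))} {P : ℕ → (Fin s → (Fin (n + 1) →₀ ℕ)) → Prop} (h : PowerSaving I P)
    (hF : 1 ≤ fdim I) (piv : Fin s → Fin (n + 1)) (e : Option (Free I piv) ≃ Fin (fdim I + 1)) :
    ∃ C : ℝ, ∀ X : ℕ, 1 ≤ X →
      ({w : Fin (fdim I + 1) → ℕ | (∀ i, 2 ≤ w i ∧ w i ≤ X) ∧ ¬ At I piv e P w}.ncard : ℝ) ≤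
        C * (X : ℝ) ^ (((fdim I + 1 : ℕ) : ℝ) - (1 / 2) ^ fdim I) := by
  classical
  obtain ⟨C, hC, hc⟩ := h
  have hσ : (1 / 2 : ℝ) ^ fdim I ≤ 1 / 2 := by
    have := pow_le_pow_of_le_one (a := (1 / 2 : ℝ)) (by norm_num) (by norm_num) hF
    rwa [pow_one] at this
  have hF1 : (1 : ℝ) ≤ (fdim I : ℝ) := by exact_mod_cast hF
  have hr : 0 ≤ (fdim I : ℝ) - (1 / 2) ^ fdim I := by linarith
  refine ⟨C, fun X hX => ?_⟩
  have hX0 : (0 : ℝ) < X := by exact_mod_cast hX
  obtain ⟨g, hg⟩ : ∃ g : ℕ × (Fin s → (Fin (n + 1) →₀ ℕ)) → Fin (fdim I + 1) → ℕ,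
    g = fun t i => Option.elim (e.symm i) t.1 (fun c => t.2 c.1.1 c.1.2) := ⟨_, rfl⟩
  have hg0 : ∀ t, g t (e none) = t.1 := by
    intro t
    rw [hg]
    simp
  have hgc : ∀ t c, g t (e (some c)) = t.2 c.1.1 c.1.2 := by
    intro t c
    rw [hg]
    simp
  have hfin : ∀ d : ℕ, {a | a ∈ TuplesIn I d ∧ ¬ P d a}.Finite :=
    fun d => (tuplesIn_finite I d).subset fun a ha => ha.1
  have hsub : {w : Fin (fdim I + 1) → ℕ | (∀ i, 2 ≤ w i ∧ w i ≤ X) ∧ ¬ At I piv e P w} ⊆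
      (((Icc 1 X).biUnion fun d => (hfin d).toFinset.image fun a => g (d, a) :
        Finset (Fin (fdim I + 1) → ℕ)) : Set (Fin (fdim I + 1) → ℕ)) := by
    rintro w ⟨hw, hA⟩
    unfold At at hA
    push Not at hA
    obtain ⟨a, ha, hac, hP⟩ := hA
    rw [mem_coe, mem_biUnion]
    refine ⟨w (e none), mem_Icc.2 ⟨by have := (hw (e none)).1; omega, (hw (e none)).2⟩,
      mem_image.2 ⟨a, (hfin _).mem_toFinset.2 ⟨ha, hP⟩, ?_⟩⟩
    funext i
    obtain ⟨o, rfl⟩ := e.surjective i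
    rcases o with _ | c
    · rw [hg0]
    · rw [hgc]
      exact hac c
  have h1 := Set.ncard_le_ncard hsub (finite_toSet _)
  rw [Set.ncard_coe_finset] at h1
  have h2 : (((Icc 1 X).biUnion fun d => (hfin d).toFinset.image fun a => g (d, a)).card : ℝ) ≤
      ∑ d ∈ Icc 1 X, C * (X : ℝ) ^ ((fdim I : ℝ) - (1 / 2) ^ fdim I) := by
    have h3 : ((Icc 1 X).biUnion fun d => (hfin d).toFinset.image fun a => g (d, a)).card ≤
        ∑ d ∈ Icc 1 X, {a | a ∈ TuplesIn I d ∧ ¬ P d a}.ncard := by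
      refine card_biUnion_le.trans (sum_le_sum fun d _ => ?_)
      rw [Set.ncard_eq_toFinset_card _ (hfin d)]
      exact card_image_le
    refine le_trans (Nat.cast_le.2 h3) ?_
    rw [Nat.cast_sum]
    refine sum_le_sum fun d hd => (hc d (mem_Icc.1 hd).1).trans ?_
    refine mul_le_mul_of_nonneg_left ?_ hC
    exact Real.rpow_le_rpow (Nat.cast_nonneg d) (by exact_mod_cast (mem_Icc.1 hd).2) hr
  rw [sum_const, Nat.card_Icc, nsmul_eq_mul, Nat.add_sub_cancel] at h2
  calc ({w : Fin (fdim I + 1) → ℕ | (∀ i, 2 ≤ w i ∧ w i ≤ X) ∧ ¬ At I piv e P w}.ncard : ℝ)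
      ≤ (X : ℝ) * (C * (X : ℝ) ^ ((fdim I : ℝ) - (1 / 2) ^ fdim I)) := le_trans (by exact_mod_cast h1) h2
    _ = C * (X : ℝ) ^ (((fdim I + 1 : ℕ) : ℝ) - (1 / 2) ^ fdim I) := by
        have : ((fdim I + 1 : ℕ) : ℝ) - (1 / 2) ^ fdim I = 1 + ((fdim I : ℝ) - (1 / 2) ^ fdim I) := by
          push_cast
          ring
        rw [this, Real.rpow_add hX0, Real.rpow_one]
        ring

/-- **Typical tuples, with the degree and the exponents from thin sets.** -/
theorem thin_typI {I : Fin s → Finset (Fin (n + 1))} (hI : ∀ i, (I i).Nonempty)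
    {P : ℕ → (Fin s → (Fin (n + 1) →₀ ℕ)) → Prop} (h : ∀ d a, TypI I d a → P d a) (hF : 1 ≤ fdim I)
    (piv : Fin s → Fin (n + 1)) (e : Option (Free I piv) ≃ Fin (fdim I + 1)) {F : Fin (fdim I + 1) → ℕ → ℕ}
    (hPM : ∀ i, PM (F i)) (U : ℕ) :
    ThinAll ((1 / 2) ^ fdim I) F U (fun (_ : Unit) w => (∀ i, 2 ≤ w i) ∧ At I piv e P w) := by
  obtain ⟨C, hC⟩ := count (saving_typI hI h) hF piv e
  exact thinAll_two (by omega) hPM (by positivity) C (fun (_ : Unit) w => At I piv e P w) (fun _ X hX => hC X hX) U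

end Pool.Agent.U951.TR.Mono
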